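import Mathlib

/-!
# Project EN (MP_4ab349_nt): solutions of multiplicative congruences, definitions

`Sol e M T` is the set of pairs `(a, b)` of vectors with `1 ≤ a i, b i ≤ T i`, `a i`, `b i` coprime
and prime to `M`, and `∏ a i ^ e i ≡ ∏ b i ^ e i` modulo `M`.
-/

set_option autoImplicit false

namespace Pool.Agent.Helper75.EN

variable {ι : Type*} [Fintype ι] [DecidableEq ι]

/-- the weighted product `∏ a i ^ e i` -/
def wt (e a : ι → ℕ) : ℕ := ∏ i, a i ^ e i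

/-- vectors with entries in `[1, T i]`, prime to `M` -/
def vecs (M : ℕ) (T : ι → ℕ) : Finset (ι → ℕ) :=
  (Fintype.piFinset fun i => Finset.Icc 1 (T i)).filter fun a => ∀ i, (a i).Coprime M

/-- the solutions -/
def Sol (e : ι → ℕ) (M : ℕ) (T : ι → ℕ) : Finset ((ι → ℕ) × (ι → ℕ)) :=
  (vecs M T ×ˢ vecs M T).filter fun p =>
    (∀ i, (p.1 i).Coprime (p.2 i)) ∧ wt e p.1 ≡ wt e p.2 [MOD M]

/-- the heights -/
def ht (p : (ι → ℕ) × (ι → ℕ)) (i : ι) : ℕ := max (p.1 i) (p.2 i)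

theorem mem_vecs {M : ℕ} {T a : ι → ℕ} :
    a ∈ vecs M T ↔ ∀ i, 1 ≤ a i ∧ a i ≤ T i ∧ (a i).Coprime M := by
  simp only [vecs, Finset.mem_filter, Fintype.mem_piFinset, Finset.mem_Icc]
  constructor
  · rintro ⟨h1, h2⟩ i
    exact ⟨(h1 i).1, (h1 i).2, h2 i⟩
  · intro h
    exact ⟨fun i => ⟨(h i).1, (h i).2.1⟩, fun i => (h i).2.2⟩

theorem mem_Sol {e : ι → ℕ} {M : ℕ} {T : ι → ℕ} {p : (ι → ℕ) × (ι → ℕ)} :
    p ∈ Sol e M T ↔ p.1 ∈ vecs M T ∧ p.2 ∈ vecs M T ∧ (∀ i, (p.1 i).Coprime (p.2 i)) ∧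
      wt e p.1 ≡ wt e p.2 [MOD M] := by
  simp only [Sol, Finset.mem_filter, Finset.mem_product, and_assoc]

theorem vecs_mono {M : ℕ} {T U : ι → ℕ} (h : ∀ i, T i ≤ U i) : vecs M T ⊆ vecs M U := by
  intro a ha
  rw [mem_vecs] at ha ⊢
  exact fun i => ⟨(ha i).1, (ha i).2.1.trans (h i), (ha i).2.2⟩

theorem Sol_mono {e : ι → ℕ} {M : ℕ} {T U : ι → ℕ} (h : ∀ i, T i ≤ U i) :
    Sol e M T ⊆ Sol e M U := by
  intro p hp
  rw [mem_Sol] at hp ⊢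
  exact ⟨vecs_mono h hp.1, vecs_mono h hp.2.1, hp.2.2⟩

end Pool.Agent.Helper75.EN
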