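import Pool.Agent.Helper75.EN.Rec2
import Pool.Agent.Helper26.Abc2.Roots

/-!
# Project EN (MP_4ab349_nt): (B4), solutions in lowest terms of a congruence between two `j`-th powers
-/

set_option autoImplicit false

namespace Pool.Agent.Helper75.EN

open Finset

/-- (B4) -/
theorem dir {j : ℕ} (hj : 0 < j) {ε : ℝ} (hε : 0 < ε) :
    ∃ C : ℝ, 1 ≤ C ∧ ∀ m P Q α β : ℕ, 0 < m → 1 ≤ P → 1 ≤ Q → α.Coprime m → β.Coprime m →
      (((Icc 1 P ×ˢ Icc 1 Q).filter fun p => p.1.Coprime p.2 ∧ p.1.Coprime m ∧ p.2.Coprime m ∧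
        α * p.1 ^ j ≡ β * p.2 ^ j [MOD m]).card : ℝ) ≤
        C * ((m : ℝ) * P * Q) ^ ε * (1 + (P : ℝ) * Q / m) := by
  classical
  obtain ⟨C1, hC1, h1⟩ := Pool.Agent.Helper26.Abc2.card_roots hj hε
  obtain ⟨C2, hC2, h2⟩ := clog_le_rpow hε
  refine ⟨4 * max C1 1 * C2, ?_, ?_⟩
  · have := le_max_right C1 1
    nlinarith
  intro m P Q α β hm hP hQ hα hβ
  have : NeZero m := ⟨hm.ne'⟩
  set S := (Icc 1 P ×ˢ Icc 1 Q).filter fun p : ℕ × ℕ => p.1.Coprime p.2 ∧ p.1.Coprime m ∧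
    p.2.Coprime m ∧ α * p.1 ^ j ≡ β * p.2 ^ j [MOD m] with hS
  have hmem : ∀ p ∈ S, 1 ≤ p.1 ∧ p.1 ≤ P ∧ 1 ≤ p.2 ∧ p.2 ≤ Q ∧ p.1.Coprime p.2 ∧
      p.1.Coprime m ∧ p.2.Coprime m ∧ α * p.1 ^ j ≡ β * p.2 ^ j [MOD m] := by
    intro p hp
    obtain ⟨h3, h4, h5, h6, h7⟩ := Finset.mem_filter.1 hp
    obtain ⟨h8, h9⟩ := Finset.mem_product.1 h3
    rw [Finset.mem_Icc] at h8 h9
    exact ⟨h8.1, h8.2, h9.1, h9.2, h4, h5, h6, h7⟩
  set u : (ZMod m)ˣ := ZMod.unitOfCoprime β hβ * (ZMod.unitOfCoprime α hα)⁻¹ with hu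
  set γ : ℕ := (u : ZMod m).val with hγ
  have hγc : γ.Coprime m := ZMod.val_coe_unit_coprime u
  have hαu : (α : ZMod m) * (u : ZMod m) = β := by
    have e1 : (u : ZMod m) = (β : ZMod m) * ((ZMod.unitOfCoprime α hα)⁻¹ : (ZMod m)ˣ) := by
      rw [hu, Units.val_mul, ZMod.coe_unitOfCoprime]
    rw [e1, mul_left_comm, ← ZMod.coe_unitOfCoprime α hα, Units.mul_inv, mul_one]
  set R := (range m).filter fun x => x ^ j ≡ γ [MOD m] with hR
  set ρ : ℕ × ℕ → ℕ := fun p => ((p.1 : ZMod m) * (p.2 : ZMod m)⁻¹).val with hρd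
  have hcastρ : ∀ p : ℕ × ℕ, ((ρ p : ℕ) : ZMod m) = (p.1 : ZMod m) * (p.2 : ZMod m)⁻¹ := fun p =>
    ZMod.natCast_zmod_val _
  have hρ : ∀ p ∈ S, ρ p ∈ R := by
    intro p hp
    obtain ⟨a1, a2, a3, a4, a5, a6, a7, a8⟩ := hmem p hp
    rw [hR, Finset.mem_filter, Finset.mem_range]
    refine ⟨ZMod.val_lt _, ?_⟩
    rw [← ZMod.natCast_eq_natCast_iff]
    have e1 := ZMod.coe_mul_inv_eq_one _ a7
    have e2 : (α : ZMod m) * (p.1 : ZMod m) ^ j = (β : ZMod m) * (p.2 : ZMod m) ^ j := by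
      have := (ZMod.natCast_eq_natCast_iff _ _ _).2 a8
      push_cast at this
      exact this
    have e3 : (γ : ZMod m) = (u : ZMod m) := ZMod.natCast_zmod_val _
    push_cast
    rw [hcastρ, e3]
    have e4 : (α : ZMod m) * ((p.1 : ZMod m) * (p.2 : ZMod m)⁻¹) ^ j = (α : ZMod m) * (u : ZMod m) := by
      rw [hαu, mul_pow, ← mul_assoc, e2, mul_assoc, ← mul_pow, e1, one_pow, mul_one]
    have e5 : IsUnit (α : ZMod m) := by
      rw [← ZMod.coe_unitOfCoprime α hα]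
      exact Units.isUnit _
    exact e5.mul_left_cancel e4
  have hm' : (0 : ℝ) < m := by exact_mod_cast hm
  -- one class
  have hcls : ∀ ω : ℕ, ∀ k ∈ range (Nat.clog 2 Q + 1),
      ((S.filter fun p => (ρ p, Nat.log 2 p.2) = (ω, k)).card : ℝ) ≤
        1 + 4 * ((P : ℝ) * Q / m) := by
    intro ω k _
    rcases (S.filter fun p => (ρ p, Nat.log 2 p.2) = (ω, k)).eq_empty_or_nonempty with h0 | h0
    · rw [h0]
      simp only [Finset.card_empty, Nat.cast_zero]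
      positivity
    have hk : 2 ^ k ≤ Q := by
      obtain ⟨p, hp⟩ := h0
      obtain ⟨hp1, hp2⟩ := Finset.mem_filter.1 hp
      obtain ⟨a1, a2, a3, a4, -⟩ := hmem p hp1
      have h4 := (Prod.mk.inj hp2).2
      rw [← h4]
      exact (Nat.pow_log_le_self 2 (by omega)).trans a4
    have hk' : (2 : ℝ) ^ k ≤ Q := by exact_mod_cast hk
    have h3 := Pool.Agent.Helper94.Abc.gap_card (S.filter fun p => (ρ p, Nat.log 2 p.2) = (ω, k))
      (fun p => (p.1 : ℝ) / p.2) (u := 0) (v := (P : ℝ) / 2 ^ k) (G := (m : ℝ) / 4 ^ (k + 1))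
      (by positivity) (by positivity)
      (by
        intro p hp
        obtain ⟨hp1, hp2⟩ := Finset.mem_filter.1 hp
        obtain ⟨a1, a2, a3, a4, -⟩ := hmem p hp1
        have h4 := (Prod.mk.inj hp2).2
        have h5 : 2 ^ k ≤ p.2 := by
          rw [← h4]
          exact Nat.pow_log_le_self 2 (by omega)
        constructor
        · positivity
        · apply div_le_div₀ (by positivity) (by exact_mod_cast a2) (by positivity)
          exact_mod_cast h5)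
      (by
        intro p hp q hq hne
        obtain ⟨hp1, hp2⟩ := Finset.mem_filter.1 hp
        obtain ⟨hq1, hq2⟩ := Finset.mem_filter.1 hq
        obtain ⟨a1, a2, a3, a4, a5, a6, a7, a8⟩ := hmem p hp1
        obtain ⟨b1, b2, b3, b4, b5, b6, b7, b8⟩ := hmem q hq1
        obtain ⟨c1, c2⟩ := Prod.mk.inj hp2
        obtain ⟨d1, d2⟩ := Prod.mk.inj hq2
        have e1 := ZMod.coe_mul_inv_eq_one _ a7
        have e2 := ZMod.coe_mul_inv_eq_one _ b7
        have e3 : (p.1 : ZMod m) * (p.2 : ZMod m)⁻¹ = (q.1 : ZMod m) * (q.2 : ZMod m)⁻¹ := by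
          rw [← hcastρ, ← hcastρ, c1, d1]
        have e4 : (p.1 : ZMod m) * (q.2 : ZMod m) = (q.1 : ZMod m) * (p.2 : ZMod m) := by
          calc (p.1 : ZMod m) * (q.2 : ZMod m)
              = (p.1 : ZMod m) * ((p.2 : ZMod m) * (p.2 : ZMod m)⁻¹) * (q.2 : ZMod m) := by
                rw [e1, mul_one]
            _ = ((p.1 : ZMod m) * (p.2 : ZMod m)⁻¹) * (p.2 : ZMod m) * (q.2 : ZMod m) := by ring
            _ = ((q.1 : ZMod m) * (q.2 : ZMod m)⁻¹) * (p.2 : ZMod m) * (q.2 : ZMod m) := by rw [e3]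
            _ = (q.1 : ZMod m) * (p.2 : ZMod m) * ((q.2 : ZMod m) * (q.2 : ZMod m)⁻¹) := by ring
            _ = _ := by rw [e2, mul_one]
        have e5 : p.1 * q.2 ≡ q.1 * p.2 [MOD m] := by
          rw [← ZMod.natCast_eq_natCast_iff]
          push_cast
          exact e4
        have e6 : (m : ℤ) ∣ (q.1 : ℤ) * p.2 - (p.1 : ℤ) * q.2 := by
          have := Int.modEq_iff_dvd.1 (Int.natCast_modEq_iff.2 e5)
          push_cast at this
          exact this
        have e7 : (q.1 : ℤ) * p.2 - (p.1 : ℤ) * q.2 ≠ 0 := by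
          intro h0
          have h1 : p.1 * q.2 = q.1 * p.2 := by
            have : (p.1 : ℤ) * q.2 = (q.1 : ℤ) * p.2 := by linarith
            exact_mod_cast this
          apply hne
          have h2 : p.1 = q.1 := Nat.dvd_antisymm
            (a5.dvd_of_dvd_mul_right (Dvd.intro _ h1))
            (b5.dvd_of_dvd_mul_right (Dvd.intro _ h1.symm))
          apply Prod.ext h2
          rw [h2] at h1
          exact (Nat.eq_of_mul_eq_mul_left b1 h1).symm
        have e8 : (m : ℤ) ≤ |(q.1 : ℤ) * p.2 - (p.1 : ℤ) * q.2| :=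
          Int.le_of_dvd (abs_pos.2 e7) ((dvd_abs _ _).2 e6)
        have e9 : (m : ℝ) ≤ |(q.1 : ℝ) * p.2 - (p.1 : ℝ) * q.2| := by exact_mod_cast e8
        have hp0 : (0 : ℝ) < p.2 := by exact_mod_cast a3
        have hq0 : (0 : ℝ) < q.2 := by exact_mod_cast b3
        have e10 : (p.1 : ℝ) / p.2 - (q.1 : ℝ) / q.2 =
            -((q.1 : ℝ) * p.2 - (p.1 : ℝ) * q.2) / (p.2 * q.2) := by
          field_simp
          ring
        rw [e10, abs_div, abs_neg, abs_of_pos (mul_pos hp0 hq0)]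
        have f1 : p.2 < 2 ^ (k + 1) := by
          rw [← c2]; exact Nat.lt_pow_succ_log_self (by norm_num) _
        have f2 : q.2 < 2 ^ (k + 1) := by
          rw [← d2]; exact Nat.lt_pow_succ_log_self (by norm_num) _
        have f3 : (p.2 : ℝ) ≤ 2 ^ (k + 1) := by exact_mod_cast f1.le
        have f4 : (q.2 : ℝ) ≤ 2 ^ (k + 1) := by exact_mod_cast f2.le
        apply div_le_div₀ (abs_nonneg _) e9 (mul_pos hp0 hq0)
        calc (p.2 : ℝ) * q.2 ≤ 2 ^ (k + 1) * 2 ^ (k + 1) := by gcongr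
          _ = 4 ^ (k + 1) := by rw [← mul_pow]; norm_num)
    refine h3.trans ?_
    have e1 : ((P : ℝ) / 2 ^ k - 0) / ((m : ℝ) / 4 ^ (k + 1)) = 4 * ((P : ℝ) * 2 ^ k / m) := by
      have : (4 : ℝ) ^ (k + 1) = 4 * (2 ^ k * 2 ^ k) := by
        rw [pow_succ, ← mul_pow]; norm_num; ring
      rw [this]
      field_simp
      ring
    rw [e1]
    gcongr
  -- counting
  have hmaps : ∀ p ∈ S, (ρ p, Nat.log 2 p.2) ∈ R ×ˢ range (Nat.clog 2 Q + 1) := by
    intro p hp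
    obtain ⟨a1, a2, a3, a4, -⟩ := hmem p hp
    rw [Finset.mem_product, Finset.mem_range]
    refine ⟨hρ p hp, Nat.lt_succ_of_le ?_⟩
    have h3 : Nat.log 2 p.2 ≤ Nat.log 2 Q := Nat.log_mono_right a4
    exact le_trans h3 (Nat.log_le_clog 2 _)
  have hcount : (S.card : ℝ) ≤ (R.card : ℝ) * ((Nat.clog 2 Q : ℕ) + 1) *
      (1 + 4 * ((P : ℝ) * Q / m)) := by
    rw [Finset.card_eq_sum_card_fiberwise (f := fun p : ℕ × ℕ => (ρ p, Nat.log 2 p.2))
      (t := R ×ˢ range (Nat.clog 2 Q + 1)) (fun p hp => Finset.mem_coe.2 (hmaps p hp))]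
    push_cast
    calc ∑ x ∈ R ×ˢ range (Nat.clog 2 Q + 1),
          ((S.filter fun p => (ρ p, Nat.log 2 p.2) = x).card : ℝ)
        ≤ ∑ _x ∈ R ×ˢ range (Nat.clog 2 Q + 1), (1 + 4 * ((P : ℝ) * Q / m)) := by
          refine Finset.sum_le_sum fun x hx => ?_
          obtain ⟨ω, k⟩ := x
          exact hcls ω k (Finset.mem_product.1 hx).2
      _ = _ := by
          rw [Finset.sum_const, nsmul_eq_mul, Finset.card_product, Finset.card_range]
          push_cast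
          ring
  have hRc := h1 m γ hm hγc
  have hQc := h2 Q hQ
  have hP' : (1 : ℝ) ≤ P := by exact_mod_cast hP
  have hQ' : (1 : ℝ) ≤ Q := by exact_mod_cast hQ
  calc (S.card : ℝ) ≤ (R.card : ℝ) * ((Nat.clog 2 Q : ℕ) + 1) * (1 + 4 * ((P : ℝ) * Q / m)) := hcount
    _ ≤ (max C1 1 * (m : ℝ) ^ ε) * (C2 * (Q : ℝ) ^ ε) * (4 * (1 + ((P : ℝ) * Q / m))) := by
        have h5 : (R.card : ℝ) ≤ max C1 1 * (m : ℝ) ^ ε :=
          hRc.trans (mul_le_mul_of_nonneg_right (le_max_left _ _) (by positivity))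
        have h6 : (0:ℝ) ≤ (P : ℝ) * Q / m := by positivity
        gcongr
        linarith
    _ = 4 * max C1 1 * C2 * ((m : ℝ) * Q) ^ ε * (1 + ((P : ℝ) * Q / m)) := by
        rw [Real.mul_rpow (by positivity) (by positivity)]
        ring
    _ ≤ _ := by
        have h7 : 0 ≤ max C1 1 := le_trans (by norm_num) (le_max_right _ _)
        have h8 : 0 ≤ C2 := by linarith
        gcongr
        have : (m : ℝ) * 1 ≤ (m : ℝ) * P := by gcongr
        linarith

end Pool.Agent.Helper75.EN
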