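import Pool.Agent.Helper75.EN.Defs
import Pool.Agent.Helper94.Abc.Basic

/-!
# Project EN (MP_4ab349_nt): energy of boxes (E1) and (E2)
-/

set_option autoImplicit false

namespace Pool.Agent.Helper75.EN

open Finset

variable {ι : Type*} [Fintype ι] [DecidableEq ι]

set_option linter.unusedSectionVars false

/-- reduced form of `x y' / (x' y)`, for `z = (x, y)`, `z' = (x', y')` -/
def red (z z' : (ι → ℕ) × (ι → ℕ)) : (ι → ℕ) × (ι → ℕ) :=
  (fun i => z.1 i * z'.2 i / Nat.gcd (z.1 i * z'.2 i) (z'.1 i * z.2 i),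
   fun i => z'.1 i * z.2 i / Nat.gcd (z.1 i * z'.2 i) (z'.1 i * z.2 i))

theorem wt_mul (e a b : ι → ℕ) : wt e (fun i => a i * b i) = wt e a * wt e b := by
  simp only [wt, mul_pow, Finset.prod_mul_distrib]

theorem wt_coprime {e a : ι → ℕ} {M : ℕ} (h : ∀ i, (a i).Coprime M) : (wt e a).Coprime M :=
  Nat.Coprime.prod_left fun i _ => Nat.Coprime.pow_left _ (h i)

theorem red_mem {e : ι → ℕ} {M : ℕ} {P Q : ι → ℕ} {z z' : (ι → ℕ) × (ι → ℕ)}
    (hz : z ∈ vecs M P ×ˢ vecs M Q) (hz' : z' ∈ vecs M P ×ˢ vecs M Q)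
    (h : wt e z.1 * wt e z'.2 ≡ wt e z'.1 * wt e z.2 [MOD M]) :
    red z z' ∈ Sol e M (fun i => P i * Q i) := by
  obtain ⟨hx, hy⟩ := Finset.mem_product.1 hz
  obtain ⟨hx', hy'⟩ := Finset.mem_product.1 hz'
  rw [mem_vecs] at hx hy hx' hy'
  set g : ι → ℕ := fun i => Nat.gcd (z.1 i * z'.2 i) (z'.1 i * z.2 i) with hg
  have hu0 : ∀ i, 0 < z.1 i * z'.2 i := fun i => Nat.mul_pos (hx i).1 (hy' i).1
  have hv0 : ∀ i, 0 < z'.1 i * z.2 i := fun i => Nat.mul_pos (hx' i).1 (hy i).1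
  have hgu : ∀ i, g i ∣ z.1 i * z'.2 i := fun i => Nat.gcd_dvd_left _ _
  have hgv : ∀ i, g i ∣ z'.1 i * z.2 i := fun i => Nat.gcd_dvd_right _ _
  have hg0 : ∀ i, 0 < g i := fun i => Nat.gcd_pos_of_pos_left _ (hu0 i)
  have hα : ∀ i, g i * (red z z').1 i = z.1 i * z'.2 i := fun i => Nat.mul_div_cancel' (hgu i)
  have hβ : ∀ i, g i * (red z z').2 i = z'.1 i * z.2 i := fun i => Nat.mul_div_cancel' (hgv i)
  have hcu : ∀ i, (z.1 i * z'.2 i).Coprime M := fun i => (hx i).2.2.mul_left (hy' i).2.2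
  have hcv : ∀ i, (z'.1 i * z.2 i).Coprime M := fun i => (hx' i).2.2.mul_left (hy i).2.2
  have hcg : ∀ i, (g i).Coprime M := fun i => (hcu i).coprime_dvd_left (hgu i)
  have hα0 : ∀ i, 0 < (red z z').1 i := fun i => Nat.div_pos (Nat.le_of_dvd (hu0 i) (hgu i)) (hg0 i)
  have hβ0 : ∀ i, 0 < (red z z').2 i := fun i => Nat.div_pos (Nat.le_of_dvd (hv0 i) (hgv i)) (hg0 i)
  rw [mem_Sol]
  refine ⟨?_, ?_, ?_, ?_⟩
  · rw [mem_vecs]
    intro i
    refine ⟨hα0 i, ?_, ?_⟩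
    · calc (red z z').1 i ≤ z.1 i * z'.2 i := Nat.div_le_self _ _
        _ ≤ P i * Q i := Nat.mul_le_mul (hx i).2.1 (hy' i).2.1
    · exact (hcu i).coprime_dvd_left ⟨g i, by rw [← hα i, mul_comm]⟩
  · rw [mem_vecs]
    intro i
    refine ⟨hβ0 i, ?_, ?_⟩
    · calc (red z z').2 i ≤ z'.1 i * z.2 i := Nat.div_le_self _ _
        _ ≤ P i * Q i := Nat.mul_le_mul (hx' i).2.1 (hy i).2.1
    · exact (hcv i).coprime_dvd_left ⟨g i, by rw [← hβ i, mul_comm]⟩
  · exact fun i => Nat.coprime_div_gcd_div_gcd (hg0 i)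
  · have h1 : wt e g * wt e (red z z').1 = wt e z.1 * wt e z'.2 := by
      rw [← wt_mul, ← wt_mul]
      exact congrArg (wt e) (funext hα)
    have h2 : wt e g * wt e (red z z').2 = wt e z'.1 * wt e z.2 := by
      rw [← wt_mul, ← wt_mul]
      exact congrArg (wt e) (funext hβ)
    rw [← h1, ← h2] at h
    exact Nat.ModEq.cancel_left_of_coprime (wt_coprime hcg).symm h

/-- triples `(g, x, x')` with `g ≤ B / h`, `x ∣ g α`, `x' ∣ g β` -/
def triples (B h α β : ℕ) : Finset (ℕ × ℕ × ℕ) :=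
  ((Icc 1 (B / h)) ×ˢ ((Icc 1 B) ×ˢ (Icc 1 B))).filter fun t => t.2.1 ∣ t.1 * α ∧ t.2.2 ∣ t.1 * β

theorem card_triples {ε C : ℝ} (hε : 0 < ε) (hC : 1 ≤ C)
    (hd : ∀ n : ℕ, n ≠ 0 → (n.divisors.card : ℝ) ≤ C * (n : ℝ) ^ ε) {B h α β : ℕ}
    (hα : 1 ≤ α) (hβ : 1 ≤ β) (hαh : α ≤ h) (hβh : β ≤ h) :
    ((triples B h α β).card : ℝ) ≤ (B : ℝ) / h * (C * (B : ℝ) ^ ε) ^ 2 := by
  have hh : 0 < h := lt_of_lt_of_le hα hαh
  have h1 : (triples B h α β).card ≤ ∑ g ∈ Icc 1 (B / h),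
      (g * α).divisors.card * (g * β).divisors.card := by
    rw [Finset.card_eq_sum_card_fiberwise (f := fun t : ℕ × ℕ × ℕ => t.1) (t := Icc 1 (B / h))]
    · refine Finset.sum_le_sum fun g hg => ?_
      rw [← Finset.card_product]
      apply Finset.card_le_card_of_injOn (fun t => (t.2.1, t.2.2))
      · rintro ⟨a, b, c⟩ ht
        simp only [triples, Finset.coe_filter, Finset.mem_filter, Finset.mem_product,
          Finset.mem_Icc, Set.mem_ofPred_eq] at ht
        obtain ⟨⟨⟨⟨h2, h3⟩, ⟨h4, h5⟩, h6, h7⟩, h8, h9⟩, h10⟩ := ht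
        subst h10
        simp only [Finset.coe_product, Set.mem_prod, Finset.mem_coe, Nat.mem_divisors]
        exact ⟨⟨h8, by positivity⟩, h9, by positivity⟩
      · rintro ⟨a, b, c⟩ ht ⟨a', b', c'⟩ ht' heq
        have e1 := (Finset.mem_filter.1 ht).2
        have e2 := (Finset.mem_filter.1 ht').2
        simp only [Prod.mk.injEq] at heq e1 e2 ⊢
        exact ⟨e1.trans e2.symm, heq.1, heq.2⟩
    · intro t ht
      exact (Finset.mem_product.1 (Finset.mem_filter.1 ht).1).1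
  have h2 : ∀ g ∈ Icc 1 (B / h), (((g * α).divisors.card * (g * β).divisors.card : ℕ) : ℝ) ≤
      (C * (B : ℝ) ^ ε) ^ 2 := by
    intro g hg
    obtain ⟨hg1, hg2⟩ := Finset.mem_Icc.1 hg
    have hgh : g * h ≤ B := (Nat.le_div_iff_mul_le hh).1 hg2
    have key : ∀ x : ℕ, 1 ≤ x → x ≤ h → ((g * x).divisors.card : ℝ) ≤ C * (B : ℝ) ^ ε := by
      intro x hx hxh
      have h3 : g * x ≤ B := (Nat.mul_le_mul_left g hxh).trans hgh
      have h4 : g * x ≠ 0 := by positivity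
      refine (hd _ h4).trans ?_
      apply mul_le_mul_of_nonneg_left _ (by linarith)
      apply Real.rpow_le_rpow (by positivity) _ hε.le
      exact_mod_cast h3
    push_cast
    rw [sq]
    exact mul_le_mul (key α hα hαh) (key β hβ hβh) (Nat.cast_nonneg _)
      (by positivity)
  calc ((triples B h α β).card : ℝ) ≤ ((∑ g ∈ Icc 1 (B / h),
      (g * α).divisors.card * (g * β).divisors.card : ℕ) : ℝ) := by exact_mod_cast h1
    _ = ∑ g ∈ Icc 1 (B / h), (((g * α).divisors.card * (g * β).divisors.card : ℕ) : ℝ) := by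
        push_cast; rfl
    _ ≤ ∑ _g ∈ Icc 1 (B / h), (C * (B : ℝ) ^ ε) ^ 2 := Finset.sum_le_sum h2
    _ = ((B / h : ℕ) : ℝ) * (C * (B : ℝ) ^ ε) ^ 2 := by
        rw [Finset.sum_const, Nat.card_Icc, nsmul_eq_mul, Nat.add_sub_cancel]
    _ ≤ (B : ℝ) / h * (C * (B : ℝ) ^ ε) ^ 2 := by
        apply mul_le_mul_of_nonneg_right Nat.cast_div_le (by positivity)

/-- (E1) -/
theorem box_energy (e : ι → ℕ) {ε : ℝ} (hε : 0 < ε) :
    ∃ C : ℝ, 1 ≤ C ∧ ∀ (M : ℕ) (P Q : ι → ℕ) (Z : Finset ((ι → ℕ) × (ι → ℕ)))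
      (pred : (ι → ℕ) × (ι → ℕ) → Prop) [DecidablePred pred],
      Z ⊆ vecs M P ×ˢ vecs M Q →
      (((Z ×ˢ Z).filter fun p => wt e p.1.1 * wt e p.2.2 ≡ wt e p.2.1 * wt e p.1.2 [MOD M] ∧
        pred (red p.1 p.2)).card : ℝ) ≤
      C * (∏ i, ((P i * Q i : ℕ) : ℝ)) ^ ε *
        ∑ s ∈ (Sol e M (fun i => P i * Q i)).filter pred, ∏ i, (((P i * Q i : ℕ) : ℝ) / ht s i) := by
  classical
  obtain ⟨C, hC, hd⟩ := Pool.Agent.Helper94.Abc.divisor_bound (ε := ε / 2) (by positivity)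
  refine ⟨∏ _i : ι, C ^ 2, ?_, ?_⟩
  · rw [Finset.prod_const]
    exact one_le_pow₀ (one_le_pow₀ hC)
  intro M P Q Z pred _ hZ
  set B : ι → ℕ := fun i => P i * Q i with hB
  set S := (Z ×ˢ Z).filter fun p => wt e p.1.1 * wt e p.2.2 ≡ wt e p.2.1 * wt e p.1.2 [MOD M] ∧
        pred (red p.1 p.2) with hS
  have hcard : S.card = ∑ s ∈ (Sol e M B).filter pred, (S.filter fun p => red p.1 p.2 = s).card := by
    apply Finset.card_eq_sum_card_fiberwise
    intro p hp
    have hp' := Finset.mem_filter.1 hp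
    have hp2 := Finset.mem_product.1 hp'.1
    exact Finset.mem_coe.2 (Finset.mem_filter.2
      ⟨red_mem (hZ hp2.1) (hZ hp2.2) hp'.2.1, hp'.2.2⟩)
  have hcast : (S.card : ℝ) =
      ∑ s ∈ (Sol e M B).filter pred, ((S.filter fun p => red p.1 p.2 = s).card : ℝ) := by
    rw [hcard, Nat.cast_sum]
  rw [hcast, Finset.mul_sum]
  refine Finset.sum_le_sum fun s hs => ?_
  have hs' := mem_Sol.1 (Finset.mem_filter.1 hs).1
  have hs1 := mem_vecs.1 hs'.1
  have hs2 := mem_vecs.1 hs'.2.1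
  have hinj : (S.filter fun p => red p.1 p.2 = s).card ≤
      (Fintype.piFinset fun i => triples (B i) (ht s i) (s.1 i) (s.2 i)).card := by
    apply Finset.card_le_card_of_injOn (fun p => fun i =>
      (Nat.gcd (p.1.1 i * p.2.2 i) (p.2.1 i * p.1.2 i), p.1.1 i, p.2.1 i))
    · intro p hp
      obtain ⟨hp1, hp2⟩ := Finset.mem_filter.1 (Finset.mem_coe.1 hp)
      obtain ⟨hp3, hp4, hp5⟩ := Finset.mem_filter.1 hp1
      obtain ⟨hz, hz'⟩ := Finset.mem_product.1 hp3
      obtain ⟨hx, hy⟩ := Finset.mem_product.1 (hZ hz)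
      obtain ⟨hx', hy'⟩ := Finset.mem_product.1 (hZ hz')
      rw [mem_vecs] at hx hy hx' hy'
      rw [Finset.mem_coe, Fintype.mem_piFinset]
      intro i
      have hu0 : 0 < p.1.1 i * p.2.2 i := Nat.mul_pos (hx i).1 (hy' i).1
      have hv0 : 0 < p.2.1 i * p.1.2 i := Nat.mul_pos (hx' i).1 (hy i).1
      set g := Nat.gcd (p.1.1 i * p.2.2 i) (p.2.1 i * p.1.2 i) with hg
      have hg0 : 0 < g := Nat.gcd_pos_of_pos_left _ hu0
      have hα : g * s.1 i = p.1.1 i * p.2.2 i := by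
        rw [← hp2]
        exact Nat.mul_div_cancel' (Nat.gcd_dvd_left _ _)
      have hβ : g * s.2 i = p.2.1 i * p.1.2 i := by
        rw [← hp2]
        exact Nat.mul_div_cancel' (Nat.gcd_dvd_right _ _)
      simp only [triples, Finset.mem_filter, Finset.mem_product, Finset.mem_Icc]
      have hQ1 : 1 ≤ Q i := (hy i).1.trans (hy i).2.1
      have hPB : P i ≤ B i := Nat.le_mul_of_pos_right _ hQ1
      refine ⟨⟨⟨hg0, ?_⟩, ⟨(hx i).1, (hx i).2.1.trans hPB⟩, (hx' i).1, (hx' i).2.1.trans hPB⟩, ?_, ?_⟩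
      · have hpos : 0 < ht s i := lt_of_lt_of_le (hs1 i).1 (le_max_left _ _)
        refine (Nat.le_div_iff_mul_le hpos).2 ?_
        change g * max (s.1 i) (s.2 i) ≤ B i
        rcases max_choice (s.1 i) (s.2 i) with h | h
        · rw [h, hα]
          exact Nat.mul_le_mul (hx i).2.1 (hy' i).2.1
        · rw [h, hβ]
          exact Nat.mul_le_mul (hx' i).2.1 (hy i).2.1
      · rw [hα]; exact Dvd.intro _ rfl
      · rw [hβ]; exact Dvd.intro _ rfl
    · rintro ⟨⟨x, y⟩, x', y'⟩ hp ⟨⟨u, v⟩, u', v'⟩ hq heq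
      obtain ⟨hp1, hp2⟩ := Finset.mem_filter.1 (Finset.mem_coe.1 hp)
      obtain ⟨hq1, hq2⟩ := Finset.mem_filter.1 (Finset.mem_coe.1 hq)
      obtain ⟨hz, hz'⟩ := Finset.mem_product.1 (Finset.mem_filter.1 hp1).1
      obtain ⟨hx, hy⟩ := Finset.mem_product.1 (hZ hz)
      obtain ⟨hx', hy'⟩ := Finset.mem_product.1 (hZ hz')
      rw [mem_vecs] at hx hy hx' hy'
      have hx1 : x = u := funext fun i => by
        have h1 := congrFun heq i
        simp only [Prod.mk.injEq] at h1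
        exact h1.2.1
      have hx2 : x' = u' := funext fun i => by
        have h1 := congrFun heq i
        simp only [Prod.mk.injEq] at h1
        exact h1.2.2
      subst hx1 hx2
      have hg : ∀ i, Nat.gcd (x i * y' i) (x' i * y i) = Nat.gcd (x i * v' i) (x' i * v i) :=
        fun i => by
          have h1 := congrFun heq i
          simp only [Prod.mk.injEq] at h1
          exact h1.1
      have hα : ∀ i, x i * y' i = x i * v' i := fun i => by
        have h1 := congrFun (congrArg Prod.fst (hp2.trans hq2.symm)) i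
        simp only [red] at h1
        have h2 := Nat.mul_div_cancel' (Nat.gcd_dvd_left (x i * y' i) (x' i * y i))
        have h3 := Nat.mul_div_cancel' (Nat.gcd_dvd_left (x i * v' i) (x' i * v i))
        rw [← h2, h1, hg i, h3]
      have hβ : ∀ i, x' i * y i = x' i * v i := fun i => by
        have h1 := congrFun (congrArg Prod.snd (hp2.trans hq2.symm)) i
        simp only [red] at h1
        have h2 := Nat.mul_div_cancel' (Nat.gcd_dvd_right (x i * y' i) (x' i * y i))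
        have h3 := Nat.mul_div_cancel' (Nat.gcd_dvd_right (x i * v' i) (x' i * v i))
        rw [← h2, h1, hg i, h3]
      have hy1 : y = v := funext fun i => Nat.eq_of_mul_eq_mul_left (hx' i).1 (hβ i)
      have hy2 : y' = v' := funext fun i => Nat.eq_of_mul_eq_mul_left (hx i).1 (hα i)
      rw [hy1, hy2]
  have h3 : ((S.filter fun p => red p.1 p.2 = s).card : ℝ) ≤
      ∏ i, ((triples (B i) (ht s i) (s.1 i) (s.2 i)).card : ℝ) := by
    have := hinj
    rw [Fintype.card_piFinset] at this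
    exact_mod_cast this
  refine h3.trans ?_
  calc ∏ i, ((triples (B i) (ht s i) (s.1 i) (s.2 i)).card : ℝ)
      ≤ ∏ i, ((B i : ℝ) / ht s i * (C * (B i : ℝ) ^ (ε / 2)) ^ 2) := by
        apply Finset.prod_le_prod (fun _ _ => Nat.cast_nonneg _)
        intro i _
        exact card_triples (by positivity) hC hd (hs1 i).1 (hs2 i).1 (le_max_left _ _)
          (le_max_right _ _)
    _ = (∏ _i : ι, C ^ 2) * (∏ i, (B i : ℝ)) ^ ε * ∏ i, ((B i : ℝ) / ht s i) := by
        rw [← Real.finsetProd_rpow _ _ (fun i _ => Nat.cast_nonneg _), ← Finset.prod_mul_distrib,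
          ← Finset.prod_mul_distrib]
        refine Finset.prod_congr rfl fun i _ => ?_
        have h4 : ((B i : ℝ) ^ (ε / 2)) ^ 2 = (B i : ℝ) ^ ε := by
          rw [← Real.rpow_natCast, ← Real.rpow_mul (Nat.cast_nonneg _)]
          congr 1
          push_cast
          ring
        rw [mul_pow, h4]
        ring

end Pool.Agent.Helper75.EN
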