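import Pool.Agent.Helper75.EN.Defs

/-!
# Project EN (MP_4ab349_nt): the joint energy inequality (JE)
-/

set_option autoImplicit false

namespace Pool.Agent.Helper75.EN

/-- number of coincidences `φ f = ψ g` against the energy of `F` and the far energy of `G` -/
theorem joint_energy {A B Γ : Type*} [DecidableEq Γ] (F : Finset A) (G : Finset B)
    (φ : A → Γ) (ψ : B → Γ) (near : B → B → Prop) [DecidableRel near] (L : ℕ)
    (hL : ∀ g ∈ G, (G.filter fun g' => ψ g' = ψ g ∧ near g g').card ≤ L) :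
    (((F ×ˢ G).filter fun p => φ p.1 = ψ p.2).card : ℝ) ≤
      2 * L * F.card +
        √(2 * (((F ×ˢ F).filter fun p => φ p.1 = φ p.2).card : ℝ) *
          (((G ×ˢ G).filter fun p => ψ p.1 = ψ p.2 ∧ ¬ near p.1 p.2).card : ℝ)) := by
  classical
  set V : Finset Γ := F.image φ with hV
  set n : Γ → ℕ := fun v => (F.filter fun f => φ f = v).card with hn
  set m : Γ → ℕ := fun v => (G.filter fun g => ψ g = v).card with hm
  -- the count
  have hcount : ((F ×ˢ G).filter fun p => φ p.1 = ψ p.2).card = ∑ v ∈ V, n v * m v := by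
    rw [Finset.card_eq_sum_card_fiberwise (f := fun p : A × B => φ p.1) (t := V)]
    · refine Finset.sum_congr rfl fun v _ => ?_
      rw [hn, hm]
      simp only
      rw [← Finset.card_product]
      congr 1
      ext ⟨f, g⟩
      simp only [Finset.mem_filter, Finset.mem_product]
      constructor
      · rintro ⟨⟨⟨h1, h2⟩, h3⟩, h4⟩
        exact ⟨⟨h1, h4⟩, h2, by rw [← h3, h4]⟩
      · rintro ⟨⟨h1, h2⟩, h3, h4⟩
        exact ⟨⟨⟨h1, h3⟩, by rw [h2, h4]⟩, h2⟩
    · intro p hp
      have h := (Finset.mem_filter.1 hp).1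
      exact Finset.mem_coe.2 (Finset.mem_image_of_mem _ (Finset.mem_product.1 h).1)
  have hEF : ((F ×ˢ F).filter fun p => φ p.1 = φ p.2).card = ∑ v ∈ V, n v * n v := by
    rw [Finset.card_eq_sum_card_fiberwise (f := fun p : A × A => φ p.1) (t := V)]
    · refine Finset.sum_congr rfl fun v _ => ?_
      rw [hn]
      simp only
      rw [← Finset.card_product]
      congr 1
      ext ⟨f, g⟩
      simp only [Finset.mem_filter, Finset.mem_product]
      constructor
      · rintro ⟨⟨⟨h1, h2⟩, h3⟩, h4⟩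
        exact ⟨⟨h1, h4⟩, h2, by rw [← h3, h4]⟩
      · rintro ⟨⟨h1, h2⟩, h3, h4⟩
        exact ⟨⟨⟨h1, h3⟩, by rw [h2, h4]⟩, h2⟩
    · intro p hp
      have h := (Finset.mem_filter.1 hp).1
      exact Finset.mem_coe.2 (Finset.mem_image_of_mem _ (Finset.mem_product.1 h).1)
  have hF : F.card = ∑ v ∈ V, n v :=
    Finset.card_eq_sum_card_fiberwise (f := φ) (t := V)
      (fun f hf => Finset.mem_coe.2 (Finset.mem_image_of_mem _ hf))
  set V2 : Finset Γ := V.filter fun v => 2 * L < m v with hV2
  -- far pairs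
  have hfar : ∑ v ∈ V2, m v * m v ≤
      2 * ((G ×ˢ G).filter fun p => ψ p.1 = ψ p.2 ∧ ¬ near p.1 p.2).card := by
    have h1 : ∑ v ∈ V2, ∑ g ∈ G.filter (fun g => ψ g = v),
        (G.filter fun g' => ψ g' = v ∧ ¬ near g g').card ≤
        ((G ×ˢ G).filter fun p => ψ p.1 = ψ p.2 ∧ ¬ near p.1 p.2).card := by
      have h2 : ∀ v ∈ V2, ∑ g ∈ G.filter (fun g => ψ g = v),
          (G.filter fun g' => ψ g' = v ∧ ¬ near g g').card =
          (((G ×ˢ G).filter fun p => ψ p.1 = ψ p.2 ∧ ¬ near p.1 p.2).filter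
            fun p => ψ p.1 = v).card := by
        intro v _
        rw [Finset.card_eq_sum_card_fiberwise (f := fun p : B × B => p.1)
          (t := G.filter fun g => ψ g = v)]
        · refine Finset.sum_congr rfl fun g hg => ?_
          have hgg := Finset.mem_filter.1 hg
          apply Finset.card_bij (fun g' _ => (g, g'))
          · intro g' hg'
            have h3 := Finset.mem_filter.1 hg'
            simp only [Finset.mem_filter, Finset.mem_product]
            exact ⟨⟨⟨⟨hgg.1, h3.1⟩, by rw [hgg.2, h3.2.1], h3.2.2⟩, hgg.2⟩, trivial⟩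
          · intro a _ b _ h
            exact (Prod.mk.inj h).2
          · rintro ⟨x, y⟩ hxy
            simp only [Finset.mem_filter, Finset.mem_product] at hxy
            obtain ⟨⟨⟨⟨h3, h4⟩, h5, h6⟩, h7⟩, h8⟩ := hxy
            subst h8
            exact ⟨y, by simp only [Finset.mem_filter]; exact ⟨h4, by rw [← h5, h7], h6⟩, rfl⟩
        · intro p hp
          have h3 := Finset.mem_filter.1 hp
          have h4 := Finset.mem_filter.1 h3.1
          exact Finset.mem_coe.2 (Finset.mem_filter.2 ⟨(Finset.mem_product.1 h4.1).1, h3.2⟩)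
      rw [Finset.sum_congr rfl h2, ← Finset.card_biUnion]
      · apply Finset.card_le_card
        intro p hp
        obtain ⟨v, _, hv⟩ := Finset.mem_biUnion.1 hp
        exact (Finset.mem_filter.1 hv).1
      · intro v _ w _ hvw
        rw [Function.onFun, Finset.disjoint_left]
        intro p hp hq
        exact hvw ((Finset.mem_filter.1 hp).2.symm.trans (Finset.mem_filter.1 hq).2)
    refine le_trans ?_ (Nat.mul_le_mul_left 2 h1)
    rw [Finset.mul_sum]
    refine Finset.sum_le_sum fun v hv => ?_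
    have hv2 : 2 * L < m v := (Finset.mem_filter.1 hv).2
    have h3 : ∀ g ∈ G.filter (fun g => ψ g = v),
        m v - L ≤ (G.filter fun g' => ψ g' = v ∧ ¬ near g g').card := by
      intro g hg
      have hg' := Finset.mem_filter.1 hg
      have h4 := hL g hg'.1
      rw [hg'.2] at h4
      have h5 : m v = (G.filter fun g' => ψ g' = v ∧ near g g').card +
          (G.filter fun g' => ψ g' = v ∧ ¬ near g g').card := by
        rw [hm]
        simp only
        rw [← Finset.card_filter_add_card_filter_not (s := G.filter fun g => ψ g = v)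
          (p := fun g' => near g g'), Finset.filter_filter, Finset.filter_filter]
      omega
    calc m v * m v ≤ 2 * (m v * (m v - L)) := by
          have : m v ≤ 2 * (m v - L) := by omega
          calc m v * m v ≤ m v * (2 * (m v - L)) := Nat.mul_le_mul_left _ this
            _ = 2 * (m v * (m v - L)) := by ring
      _ ≤ 2 * ∑ g ∈ G.filter (fun g => ψ g = v),
          (G.filter fun g' => ψ g' = v ∧ ¬ near g g').card := by
          apply Nat.mul_le_mul_left
          calc m v * (m v - L) = ∑ _g ∈ G.filter (fun g => ψ g = v), (m v - L) := by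
                rw [Finset.sum_const, smul_eq_mul]
            _ ≤ _ := Finset.sum_le_sum h3
  -- splitting
  rw [hcount]
  push_cast
  have hsplit : ∑ v ∈ V, (n v : ℝ) * m v =
      ∑ v ∈ V.filter (fun v => ¬ 2 * L < m v), (n v : ℝ) * m v + ∑ v ∈ V2, (n v : ℝ) * m v := by
    rw [hV2, add_comm, Finset.sum_filter_add_sum_filter_not]
  rw [hsplit]
  refine add_le_add ?_ ?_
  · calc ∑ v ∈ V.filter (fun v => ¬ 2 * L < m v), (n v : ℝ) * m v
        ≤ ∑ v ∈ V.filter (fun v => ¬ 2 * L < m v), (n v : ℝ) * (2 * L) := by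
          refine Finset.sum_le_sum fun v hv => ?_
          have h1 : ¬ 2 * L < m v := (Finset.mem_filter.1 hv).2
          have h2 : (m v : ℝ) ≤ 2 * L := by exact_mod_cast not_lt.1 h1
          exact mul_le_mul_of_nonneg_left h2 (Nat.cast_nonneg _)
      _ ≤ ∑ v ∈ V, (n v : ℝ) * (2 * L) :=
          Finset.sum_le_sum_of_subset_of_nonneg (Finset.filter_subset _ _)
            (fun _ _ _ => by positivity)
      _ = 2 * L * F.card := by
          rw [← Finset.sum_mul, hF]
          push_cast
          ring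
  · have h1 := Finset.sum_mul_sq_le_sq_mul_sq V2 (fun v => (n v : ℝ)) (fun v => (m v : ℝ))
    have h2 : ∑ v ∈ V2, (n v : ℝ) ^ 2 ≤
        (((F ×ˢ F).filter fun p => φ p.1 = φ p.2).card : ℝ) := by
      rw [hEF]
      push_cast
      calc ∑ v ∈ V2, (n v : ℝ) ^ 2 ≤ ∑ v ∈ V, (n v : ℝ) ^ 2 :=
            Finset.sum_le_sum_of_subset_of_nonneg (Finset.filter_subset _ _)
              (fun _ _ _ => by positivity)
        _ = ∑ v ∈ V, (n v : ℝ) * n v := Finset.sum_congr rfl fun v _ => by ring
    have h3 : ∑ v ∈ V2, (m v : ℝ) ^ 2 ≤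
        2 * (((G ×ˢ G).filter fun p => ψ p.1 = ψ p.2 ∧ ¬ near p.1 p.2).card : ℝ) := by
      have h4 : ((∑ v ∈ V2, m v * m v : ℕ) : ℝ) ≤
          ((2 * ((G ×ˢ G).filter fun p => ψ p.1 = ψ p.2 ∧ ¬ near p.1 p.2).card : ℕ) : ℝ) := by
        exact_mod_cast hfar
      push_cast at h4
      calc ∑ v ∈ V2, (m v : ℝ) ^ 2 = ∑ v ∈ V2, (m v : ℝ) * m v :=
            Finset.sum_congr rfl fun v _ => by ring
        _ ≤ _ := h4
    apply Real.le_sqrt_of_sq_le
    calc (∑ v ∈ V2, (n v : ℝ) * m v) ^ 2 ≤ (∑ v ∈ V2, (n v : ℝ) ^ 2) * ∑ v ∈ V2, (m v : ℝ) ^ 2 := h1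
      _ ≤ (((F ×ˢ F).filter fun p => φ p.1 = φ p.2).card : ℝ) *
          (2 * (((G ×ˢ G).filter fun p => ψ p.1 = ψ p.2 ∧ ¬ near p.1 p.2).card : ℝ)) :=
          mul_le_mul h2 h3 (Finset.sum_nonneg fun _ _ => by positivity) (Nat.cast_nonneg _)
      _ = _ := by ring

end Pool.Agent.Helper75.EN
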