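import Pool.Agent.Helper75.EN.Dir

/-!
# Project EN (MP_4ab349_nt): section 3, square root bounds (Q1) - (Q4)
-/

set_option autoImplicit false

namespace Pool.Agent.Helper75.EN

open Finset

variable {ι : Type*} [Fintype ι] [DecidableEq ι]

set_option linter.unusedSectionVars false

theorem wt_update (e a : ι → ℕ) (i : ι) :
    wt e a = wt e (Function.update a i 1) * a i ^ e i := by
  unfold wt
  rw [← Finset.mul_prod_erase _ _ (Finset.mem_univ i),
    ← Finset.mul_prod_erase univ (fun k => Function.update a i 1 k ^ e k) (Finset.mem_univ i)]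
  simp only [Function.update_self, one_pow, one_mul]
  rw [mul_comm]
  congr 1
  refine Finset.prod_congr rfl fun k hk => ?_
  rw [Function.update_of_ne (Finset.ne_of_mem_erase hk)]

theorem prod_update_one (T : ι → ℕ) (i : ι) :
    ∏ k, Function.update T i 1 k = ∏ k ∈ univ.erase i, T k := by
  rw [← Finset.mul_prod_erase univ (fun k => Function.update T i 1 k) (Finset.mem_univ i)]
  simp only [Function.update_self, one_mul]
  refine Finset.prod_congr rfl fun k hk => ?_
  rw [Function.update_of_ne (Finset.ne_of_mem_erase hk)]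

theorem Sol_vecs {e : ι → ℕ} {M : ℕ} {T : ι → ℕ} {p : (ι → ℕ) × (ι → ℕ)} (hp : p ∈ Sol e M T) :
    (∀ i, 1 ≤ p.1 i ∧ p.1 i ≤ T i ∧ (p.1 i).Coprime M) ∧
    (∀ i, 1 ≤ p.2 i ∧ p.2 i ≤ T i ∧ (p.2 i).Coprime M) ∧ (∀ i, (p.1 i).Coprime (p.2 i)) ∧
      wt e p.1 ≡ wt e p.2 [MOD M] := by
  obtain ⟨h1, h2, h3, h4⟩ := mem_Sol.1 hp
  exact ⟨mem_vecs.1 h1, mem_vecs.1 h2, h3, h4⟩

/-- fix all coordinates but one, (B4) for this one -/
theorem quad (e : ι → ℕ) (i : ι) (he : 1 ≤ e i) {ε : ℝ} (hε : 0 < ε) :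
    ∃ C : ℝ, 1 ≤ C ∧ ∀ (M : ℕ) (T : ι → ℕ), 0 < M → (∀ k, 1 ≤ T k) →
      ((Sol e M T).card : ℝ) ≤ C * ((M : ℝ) * T i * T i) ^ ε *
        (∏ k ∈ univ.erase i, (T k : ℝ)) ^ 2 * (1 + (T i : ℝ) * T i / M) := by
  classical
  obtain ⟨C, hC, h⟩ := dir (j := e i) (by omega) hε
  refine ⟨C, hC, fun M T hM hT => ?_⟩
  set V := vecs M (Function.update T i 1) ×ˢ vecs M (Function.update T i 1) with hV
  have hupd : ∀ {a : ι → ℕ}, (∀ k, 1 ≤ a k ∧ a k ≤ T k ∧ (a k).Coprime M) →
      Function.update a i 1 ∈ vecs M (Function.update T i 1) := by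
    intro a ha
    rw [mem_vecs]
    intro k
    by_cases hk : k = i
    · subst hk
      simp
    · rw [Function.update_of_ne hk, Function.update_of_ne hk]
      exact ha k
  have hmaps : ∀ p ∈ Sol e M T, (Function.update p.1 i 1, Function.update p.2 i 1) ∈ V := by
    intro p hp
    obtain ⟨h1, h2, -, -⟩ := Sol_vecs hp
    exact Finset.mem_product.2 ⟨hupd h1, hupd h2⟩
  rw [Finset.card_eq_sum_card_fiberwise (f := fun p : (ι → ℕ) × (ι → ℕ) =>
    (Function.update p.1 i 1, Function.update p.2 i 1)) (t := V)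
    (fun p hp => Finset.mem_coe.2 (hmaps p hp))]
  push_cast
  have hfib : ∀ v ∈ V, (((Sol e M T).filter fun p =>
      (Function.update p.1 i 1, Function.update p.2 i 1) = v).card : ℝ) ≤
      C * ((M : ℝ) * T i * T i) ^ ε * (1 + (T i : ℝ) * T i / M) := by
    intro v hv
    obtain ⟨hv1, hv2⟩ := Finset.mem_product.1 hv
    rw [mem_vecs] at hv1 hv2
    have h1 := h M (T i) (T i) (wt e v.1) (wt e v.2) hM (hT i) (hT i)
      (wt_coprime fun k => (hv1 k).2.2) (wt_coprime fun k => (hv2 k).2.2)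
    refine le_trans ?_ h1
    have h2 : ((Sol e M T).filter fun p =>
        (Function.update p.1 i 1, Function.update p.2 i 1) = v).card ≤
        ((Icc 1 (T i) ×ˢ Icc 1 (T i)).filter fun p : ℕ × ℕ => p.1.Coprime p.2 ∧ p.1.Coprime M ∧
          p.2.Coprime M ∧ wt e v.1 * p.1 ^ e i ≡ wt e v.2 * p.2 ^ e i [MOD M]).card := by
      apply Finset.card_le_card_of_injOn (fun p => (p.1 i, p.2 i))
      · intro p hp
        obtain ⟨hp1, hp2⟩ := Finset.mem_filter.1 (Finset.mem_coe.1 hp)
        obtain ⟨a1, a2, a3, a4⟩ := Sol_vecs hp1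
        rw [Finset.mem_coe, Finset.mem_filter, Finset.mem_product, Finset.mem_Icc, Finset.mem_Icc]
        refine ⟨⟨⟨(a1 i).1, (a1 i).2.1⟩, (a2 i).1, (a2 i).2.1⟩, a3 i, (a1 i).2.2, (a2 i).2.2, ?_⟩
        rw [wt_update e p.1 i, wt_update e p.2 i] at a4
        rw [← hp2]
        exact a4
      · intro p hp q hq hpq
        obtain ⟨-, hp2⟩ := Finset.mem_filter.1 (Finset.mem_coe.1 hp)
        obtain ⟨-, hq2⟩ := Finset.mem_filter.1 (Finset.mem_coe.1 hq)
        rw [← hq2] at hp2
        obtain ⟨b1, b2⟩ := Prod.mk.inj hp2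
        obtain ⟨c1, c2⟩ := Prod.mk.inj hpq
        have key : ∀ {x y : ι → ℕ}, Function.update x i 1 = Function.update y i 1 →
            x i = y i → x = y := by
          intro x y hxy hi
          funext k
          by_cases hk : k = i
          · rw [hk]; exact hi
          · have := congrFun hxy k
            rwa [Function.update_of_ne hk, Function.update_of_ne hk] at this
        exact Prod.ext (key b1 c1) (key b2 c2)
    exact_mod_cast h2
  calc ∑ v ∈ V, (((Sol e M T).filter fun p =>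
      (Function.update p.1 i 1, Function.update p.2 i 1) = v).card : ℝ)
      ≤ ∑ _v ∈ V, C * ((M : ℝ) * T i * T i) ^ ε * (1 + (T i : ℝ) * T i / M) :=
        Finset.sum_le_sum hfib
    _ = (V.card : ℝ) * (C * ((M : ℝ) * T i * T i) ^ ε * (1 + (T i : ℝ) * T i / M)) := by
        rw [Finset.sum_const, nsmul_eq_mul]
    _ ≤ (∏ k ∈ univ.erase i, (T k : ℝ)) ^ 2 *
        (C * ((M : ℝ) * T i * T i) ^ ε * (1 + (T i : ℝ) * T i / M)) := by
        apply mul_le_mul_of_nonneg_right _ (by positivity)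
        have h3 := card_vecs_le M (Function.update T i 1)
        rw [prod_update_one] at h3
        have h4 : V.card ≤ (∏ k ∈ univ.erase i, T k) ^ 2 := by
          rw [hV, Finset.card_product, sq]
          exact Nat.mul_le_mul h3 h3
        exact_mod_cast h4
    _ = _ := by ring

end Pool.Agent.Helper75.EN
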