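import Pool.Agent.Helper75.EN.JE
import Pool.Agent.Helper75.EN.Energy

/-!
# Project EN (MP_4ab349_nt): (E2) and the off-diagonal recursion (REC)
-/

set_option autoImplicit false

namespace Pool.Agent.Helper75.EN

open Finset

variable {ι : Type*} [Fintype ι] [DecidableEq ι]

set_option linter.unusedSectionVars false

theorem clog_le_rpow {ε : ℝ} (hε : 0 < ε) :
    ∃ C : ℝ, 1 ≤ C ∧ ∀ B : ℕ, 1 ≤ B → ((Nat.clog 2 B : ℕ) : ℝ) + 1 ≤ C * (B : ℝ) ^ ε := by
  refine ⟨2 + 1 / (ε * Real.log 2), ?_, ?_⟩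
  · have := Real.log_pos (by norm_num : (1:ℝ) < 2)
    have h : 0 < 1 / (ε * Real.log 2) := by positivity
    linarith
  intro B hB
  have hlog2 := Real.log_pos (by norm_num : (1:ℝ) < 2)
  have hB1 : (1 : ℝ) ≤ B := by exact_mod_cast hB
  have h1 : 1 ≤ (B : ℝ) ^ ε := Real.one_le_rpow hB1 hε.le
  have h2 : Nat.clog 2 B ≤ Nat.log 2 B + 1 := by
    apply (Nat.clog_le_iff_le_pow (by norm_num)).2
    exact (Nat.lt_pow_succ_log_self (by norm_num) B).le
  have h3 : ((Nat.log 2 B : ℕ) : ℝ) ≤ Real.log B / Real.log 2 := by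
    rw [le_div_iff₀ hlog2, ← Real.log_pow]
    apply Real.log_le_log (by positivity)
    exact_mod_cast Nat.pow_log_le_self 2 (by omega)
  have h4 := Real.log_le_rpow_div (x := (B : ℝ)) (by positivity) hε
  have h5 : Real.log B / Real.log 2 ≤ 1 / (ε * Real.log 2) * (B : ℝ) ^ ε := by
    rw [div_le_iff₀ hlog2]
    calc Real.log B ≤ (B : ℝ) ^ ε / ε := h4
      _ = 1 / (ε * Real.log 2) * (B : ℝ) ^ ε * Real.log 2 := by field_simp
  have h2' : ((Nat.clog 2 B : ℕ) : ℝ) ≤ (Nat.log 2 B : ℕ) + 1 := by exact_mod_cast h2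
  nlinarith

/-- (E2) -/
theorem dyadic_sum {ε : ℝ} (hε : 0 < ε) :
    ∃ C : ℝ, 1 ≤ C ∧ ∀ (e : ι → ℕ) (M : ℕ) (B : ι → ℕ) (K : ℝ)
      (pred : (ι → ℕ) × (ι → ℕ) → Prop) [DecidablePred pred], 0 ≤ K →
      (∀ s ∈ Sol e M B, pred s → ∀ U : ι → ℕ, (∀ i, ht s i ≤ U i) → (∀ i, U i ≤ 2 * ht s i) →
        (∀ i, U i ≤ B i) → ((Sol e M U).card : ℝ) ≤ K * ∏ i, (U i : ℝ)) →
      ∑ s ∈ (Sol e M B).filter pred, ∏ i, ((B i : ℝ) / ht s i) ≤
        C * (∏ i, (B i : ℝ)) ^ ε * (K * ∏ i, (B i : ℝ)) := by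
  classical
  obtain ⟨C, hC, hd⟩ := clog_le_rpow hε
  refine ⟨∏ _i : ι, (2 * C), ?_, ?_⟩
  · rw [Finset.prod_const]
    exact one_le_pow₀ (by linarith)
  intro e M B K pred _ hK hU
  set V : Finset (ι → ℕ) := Fintype.piFinset fun i => Finset.range (Nat.clog 2 (B i) + 1) with hV
  set κ : (ι → ℕ) × (ι → ℕ) → (ι → ℕ) := fun s i => Nat.clog 2 (ht s i) with hκ
  have hmem : ∀ s ∈ (Sol e M B).filter pred, κ s ∈ V := by
    intro s hs
    have hs' := mem_Sol.1 (Finset.mem_filter.1 hs).1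
    have hs1 := mem_vecs.1 hs'.1
    have hs2 := mem_vecs.1 hs'.2.1
    rw [hV, Fintype.mem_piFinset]
    intro i
    rw [Finset.mem_range]
    exact Nat.lt_succ_of_le (Nat.clog_mono_right 2 (max_le (hs1 i).2.1 (hs2 i).2.1))
  rw [← Finset.sum_fiberwise_of_maps_to hmem]
  have key : ∀ k ∈ V, ∑ s ∈ ((Sol e M B).filter pred).filter (fun s => κ s = k),
      ∏ i, ((B i : ℝ) / ht s i) ≤ (∏ _i : ι, (2 : ℝ)) * (K * ∏ i, (B i : ℝ)) := by
    intro k _
    rcases (((Sol e M B).filter pred).filter (fun s => κ s = k)).eq_empty_or_nonempty with h0 | h0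
    · rw [h0, Finset.sum_empty]
      positivity
    obtain ⟨s0, hs0⟩ := h0
    set U : ι → ℕ := fun i => min (2 ^ k i) (B i) with hUd
    have hgen : ∀ s ∈ ((Sol e M B).filter pred).filter (fun s => κ s = k),
        (∀ i, 1 ≤ ht s i) ∧ (∀ i, ht s i ≤ U i) ∧ (∀ i, U i ≤ 2 * ht s i) := by
      intro s hs
      obtain ⟨hs1, hs2⟩ := Finset.mem_filter.1 hs
      have hs' := mem_Sol.1 (Finset.mem_filter.1 hs1).1
      have hs3 := mem_vecs.1 hs'.1
      have hs4 := mem_vecs.1 hs'.2.1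
      have h1 : ∀ i, 1 ≤ ht s i := fun i => (hs3 i).1.trans (le_max_left _ _)
      refine ⟨h1, fun i => ?_, fun i => ?_⟩
      · apply le_min
        · rw [← hs2]
          exact Nat.le_pow_clog (by norm_num) _
        · exact max_le (hs3 i).2.1 (hs4 i).2.1
      · refine (min_le_left _ _).trans ?_
        rw [← hs2]
        simp only [hκ]
        rcases Nat.eq_or_lt_of_le (h1 i) with h2 | h2
        · rw [← h2]; simp
        · have h3 := Nat.pow_pred_clog_lt_self (b := 2) (by norm_num) h2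
          have h4 : 0 < Nat.clog 2 (ht s i) := Nat.clog_pos (by norm_num) h2
          have h5 : 2 ^ Nat.clog 2 (ht s i) = 2 * 2 ^ (Nat.clog 2 (ht s i)).pred := by
            rw [← pow_succ', Nat.pred_eq_sub_one, Nat.sub_add_cancel h4]
          rw [h5]
          omega
    have hsub : ((Sol e M B).filter pred).filter (fun s => κ s = k) ⊆ Sol e M U := by
      intro s hs
      have hs' := mem_Sol.1 (Finset.mem_filter.1 (Finset.mem_filter.1 hs).1).1
      have hs3 := mem_vecs.1 hs'.1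
      have hs4 := mem_vecs.1 hs'.2.1
      have h5 := (hgen s hs).2.1
      rw [mem_Sol]
      refine ⟨mem_vecs.2 fun i => ⟨(hs3 i).1, (le_max_left _ _).trans (h5 i), (hs3 i).2.2⟩,
        mem_vecs.2 fun i => ⟨(hs4 i).1, (le_max_right _ _).trans (h5 i), (hs4 i).2.2⟩, hs'.2.2⟩
    have hcardU : ((Sol e M U).card : ℝ) ≤ K * ∏ i, (U i : ℝ) := by
      obtain ⟨hs1, hs2⟩ := Finset.mem_filter.1 hs0
      obtain ⟨hs3, hs4⟩ := Finset.mem_filter.1 hs1
      exact hU s0 hs3 hs4 U (hgen s0 hs0).2.1 (hgen s0 hs0).2.2 (fun i => min_le_right _ _)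
    have hUpos : ∀ i, 0 < U i := fun i =>
      lt_of_lt_of_le ((hgen s0 hs0).1 i) ((hgen s0 hs0).2.1 i)
    have hterm : ∀ s ∈ ((Sol e M B).filter pred).filter (fun s => κ s = k),
        ∏ i, ((B i : ℝ) / ht s i) ≤ ∏ i, (2 * (B i : ℝ) / U i) := by
      intro s hs
      obtain ⟨g1, g2, g3⟩ := hgen s hs
      apply Finset.prod_le_prod (fun i _ => by positivity)
      intro i _
      have h1 : (0 : ℝ) < ht s i := by exact_mod_cast g1 i
      have h2 : (0 : ℝ) < U i := by exact_mod_cast hUpos i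
      have h3 : (U i : ℝ) ≤ 2 * ht s i := by exact_mod_cast g3 i
      rw [div_le_div_iff₀ h1 h2]
      have h4 : (0 : ℝ) ≤ B i := Nat.cast_nonneg _
      nlinarith
    calc ∑ s ∈ ((Sol e M B).filter pred).filter (fun s => κ s = k), ∏ i, ((B i : ℝ) / ht s i)
        ≤ ∑ s ∈ ((Sol e M B).filter pred).filter (fun s => κ s = k),
            ∏ i, (2 * (B i : ℝ) / U i) := Finset.sum_le_sum hterm
      _ = ((((Sol e M B).filter pred).filter (fun s => κ s = k)).card : ℝ) *
            ∏ i, (2 * (B i : ℝ) / U i) := by rw [Finset.sum_const, nsmul_eq_mul]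
      _ ≤ (K * ∏ i, (U i : ℝ)) * ∏ i, (2 * (B i : ℝ) / U i) := by
          apply mul_le_mul_of_nonneg_right _ (Finset.prod_nonneg fun i _ => by positivity)
          refine le_trans ?_ hcardU
          exact_mod_cast Finset.card_le_card hsub
      _ = K * ∏ i, ((U i : ℝ) * (2 * (B i : ℝ) / U i)) := by
          rw [mul_assoc, ← Finset.prod_mul_distrib]
      _ = K * ∏ i, (2 * (B i : ℝ)) := by
          congr 1
          refine Finset.prod_congr rfl fun i _ => ?_
          have h2 : (0 : ℝ) < U i := by exact_mod_cast hUpos i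
          field_simp
      _ = (∏ _i : ι, (2 : ℝ)) * (K * ∏ i, (B i : ℝ)) := by
          rw [Finset.prod_mul_distrib]; ring
  by_cases hB : ∀ i, 1 ≤ B i
  · calc ∑ k ∈ V, ∑ s ∈ ((Sol e M B).filter pred).filter (fun s => κ s = k),
        ∏ i, ((B i : ℝ) / ht s i)
        ≤ ∑ _k ∈ V, (∏ _i : ι, (2 : ℝ)) * (K * ∏ i, (B i : ℝ)) := Finset.sum_le_sum key
      _ = (V.card : ℝ) * ((∏ _i : ι, (2 : ℝ)) * (K * ∏ i, (B i : ℝ))) := by
          rw [Finset.sum_const, nsmul_eq_mul]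
      _ ≤ (∏ i, (C * (B i : ℝ) ^ ε)) * ((∏ _i : ι, (2 : ℝ)) * (K * ∏ i, (B i : ℝ))) := by
          apply mul_le_mul_of_nonneg_right _ (by positivity)
          rw [hV, Fintype.card_piFinset]
          push_cast
          apply Finset.prod_le_prod (fun i _ => by positivity)
          intro i _
          rw [Finset.card_range]
          push_cast
          exact hd (B i) (hB i)
      _ = (∏ _i : ι, (2 * C)) * (∏ i, (B i : ℝ)) ^ ε * (K * ∏ i, (B i : ℝ)) := by
          rw [← Real.finsetProd_rpow _ _ (fun i _ => Nat.cast_nonneg _), Finset.prod_mul_distrib,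
            Finset.prod_mul_distrib]
          ring
  · have hempty : Sol e M B = ∅ := by
      push Not at hB
      obtain ⟨i, hi⟩ := hB
      rw [Finset.eq_empty_iff_forall_notMem]
      intro s hs
      have := (mem_vecs.1 (mem_Sol.1 hs).1 i)
      omega
    rw [Finset.sum_eq_zero]
    · have : 0 ≤ (∏ i, (B i : ℝ)) ^ ε := by positivity
      have : 0 ≤ ∏ _i : ι, (2 * C) := by
        apply Finset.prod_nonneg; intro _ _; linarith
      positivity
    · intro k _
      rw [hempty]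
      simp

end Pool.Agent.Helper75.EN
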