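import Pool.Agent.Helper75.EN.Rec

/-!
# Project EN (MP_4ab349_nt): the off-diagonal recursion (REC), (REC0)
-/

set_option autoImplicit false

namespace Pool.Agent.Helper75.EN

open Finset

variable {ι : Type*} [Fintype ι] [DecidableEq ι]

set_option linter.unusedSectionVars false

/-- energy of a set of pairs of vectors, restricted by a predicate on the reduced quotients -/
def En (e : ι → ℕ) (M : ℕ) (Z : Finset ((ι → ℕ) × (ι → ℕ)))
    (pred : (ι → ℕ) × (ι → ℕ) → Prop) [DecidablePred pred] : ℕ :=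
  ((Z ×ˢ Z).filter fun p => wt e p.1.1 * wt e p.2.2 ≡ wt e p.2.1 * wt e p.1.2 [MOD M] ∧
    pred (red p.1 p.2)).card

/-- the residue `wt x / wt y` -/
def phi (e : ι → ℕ) (M : ℕ) (z : (ι → ℕ) × (ι → ℕ)) : ZMod M :=
  (wt e z.1 : ZMod M) * (wt e z.2 : ZMod M)⁻¹

theorem phi_eq_iff {e : ι → ℕ} {M : ℕ} {z z' : (ι → ℕ) × (ι → ℕ)}
    (h : (wt e z.2).Coprime M) (h' : (wt e z'.2).Coprime M) :
    phi e M z = phi e M z' ↔ wt e z.1 * wt e z'.2 ≡ wt e z'.1 * wt e z.2 [MOD M] := by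
  have h1 := ZMod.coe_mul_inv_eq_one _ h
  have h2 := ZMod.coe_mul_inv_eq_one _ h'
  rw [← ZMod.natCast_eq_natCast_iff]
  push_cast
  unfold phi
  constructor
  · intro h3
    calc (wt e z.1 : ZMod M) * (wt e z'.2 : ZMod M)
        = (wt e z.1 : ZMod M) * (wt e z'.2 : ZMod M) *
          ((wt e z.2 : ZMod M) * (wt e z.2 : ZMod M)⁻¹) := by rw [h1, mul_one]
      _ = ((wt e z.1 : ZMod M) * (wt e z.2 : ZMod M)⁻¹) *
          ((wt e z'.2 : ZMod M) * (wt e z.2 : ZMod M)) := by ring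
      _ = ((wt e z'.1 : ZMod M) * (wt e z'.2 : ZMod M)⁻¹) *
          ((wt e z'.2 : ZMod M) * (wt e z.2 : ZMod M)) := by rw [h3]
      _ = (wt e z'.1 : ZMod M) * (wt e z.2 : ZMod M) *
          ((wt e z'.2 : ZMod M) * (wt e z'.2 : ZMod M)⁻¹) := by ring
      _ = _ := by rw [h2, mul_one]
  · intro h3
    calc (wt e z.1 : ZMod M) * (wt e z.2 : ZMod M)⁻¹
        = (wt e z.1 : ZMod M) * (wt e z.2 : ZMod M)⁻¹ *
          ((wt e z'.2 : ZMod M) * (wt e z'.2 : ZMod M)⁻¹) := by rw [h2, mul_one]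
      _ = ((wt e z.1 : ZMod M) * (wt e z'.2 : ZMod M)) *
          ((wt e z.2 : ZMod M)⁻¹ * (wt e z'.2 : ZMod M)⁻¹) := by ring
      _ = ((wt e z'.1 : ZMod M) * (wt e z.2 : ZMod M)) *
          ((wt e z.2 : ZMod M)⁻¹ * (wt e z'.2 : ZMod M)⁻¹) := by rw [h3]
      _ = (wt e z'.1 : ZMod M) * (wt e z'.2 : ZMod M)⁻¹ *
          ((wt e z.2 : ZMod M) * (wt e z.2 : ZMod M)⁻¹) := by ring
      _ = _ := by rw [h1, mul_one]

/-- sizes of the coordinates of `F` -/
def FP (c T : ι → ℕ) (i : ι) : ℕ := if c i ≤ 1 then T i else 1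
/-- sizes of the coordinates of `F` -/
def FQ (c T : ι → ℕ) (i : ι) : ℕ := if c i = 0 then T i else 1
/-- sizes of the coordinates of `G` -/
def GP (c T : ι → ℕ) (i : ι) : ℕ := if 1 ≤ c i then T i else 1
/-- sizes of the coordinates of `G` -/
def GQ (c T : ι → ℕ) (i : ι) : ℕ := if c i = 2 then T i else 1

/-- the set `F` -/
def Fs (M : ℕ) (c T : ι → ℕ) : Finset ((ι → ℕ) × (ι → ℕ)) :=
  vecs M (FP c T) ×ˢ vecs M (FQ c T)

/-- the set `G` -/
def Gs (M : ℕ) (c T : ι → ℕ) : Finset ((ι → ℕ) × (ι → ℕ)) :=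
  (vecs M (GP c T) ×ˢ vecs M (GQ c T)).filter fun z => ∀ i, (z.1 i).Coprime (z.2 i)

theorem FP_mul_FQ {c T : ι → ℕ} (hc : ∀ i, c i ≤ 2) (i : ι) :
    FP c T i * FQ c T i = T i ^ (2 - c i) := by
  have h := hc i
  unfold FP FQ
  interval_cases h' : c i <;> simp [pow_two]

theorem GP_mul_GQ {c T : ι → ℕ} (hc : ∀ i, c i ≤ 2) (i : ι) :
    GP c T i * GQ c T i = T i ^ c i := by
  have h := hc i
  unfold GP GQ
  interval_cases h' : c i <;> simp [pow_two]

theorem Gs_subset (M : ℕ) (c T : ι → ℕ) : Gs M c T ⊆ vecs M (GP c T) ×ˢ vecs M (GQ c T) :=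
  Finset.filter_subset _ _

theorem card_vecs_le (M : ℕ) (T : ι → ℕ) : (vecs M T).card ≤ ∏ i, T i := by
  refine (Finset.card_filter_le _ _).trans ?_
  rw [Fintype.card_piFinset]
  simp

theorem card_Fs_le (M : ℕ) {c T : ι → ℕ} (hc : ∀ i, c i ≤ 2) :
    (Fs M c T).card ≤ ∏ i, T i ^ (2 - c i) := by
  unfold Fs
  rw [Finset.card_product]
  refine (Nat.mul_le_mul (card_vecs_le _ _) (card_vecs_le _ _)).trans ?_
  rw [← Finset.prod_mul_distrib]
  exact le_of_eq (Finset.prod_congr rfl fun i _ => FP_mul_FQ hc i)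

/-- `z` and the reduced quotient determine `z'` -/
theorem red_inj {z z' z'' : (ι → ℕ) × (ι → ℕ)} (h1 : ∀ i, 0 < z.1 i) (h2 : ∀ i, 0 < z.2 i)
    (h3 : ∀ i, 0 < z'.1 i) (h4 : ∀ i, 0 < z'.2 i)
    (hc' : ∀ i, (z'.1 i).Coprime (z'.2 i)) (hc'' : ∀ i, (z''.1 i).Coprime (z''.2 i))
    (h : red z z' = red z z'') : z' = z'' := by
  have key : ∀ i, z'.1 i * z''.2 i = z''.1 i * z'.2 i := by
    intro i
    have e1 := congrFun (congrArg Prod.fst h) i
    have e2 := congrFun (congrArg Prod.snd h) i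
    simp only [red] at e1 e2
    have a1 := Nat.mul_div_cancel' (Nat.gcd_dvd_left (z.1 i * z'.2 i) (z'.1 i * z.2 i))
    have a2 := Nat.mul_div_cancel' (Nat.gcd_dvd_right (z.1 i * z'.2 i) (z'.1 i * z.2 i))
    have a3 := Nat.mul_div_cancel' (Nat.gcd_dvd_left (z.1 i * z''.2 i) (z''.1 i * z.2 i))
    have a4 := Nat.mul_div_cancel' (Nat.gcd_dvd_right (z.1 i * z''.2 i) (z''.1 i * z.2 i))
    rw [← e1] at a3
    rw [← e2] at a4
    set d := Nat.gcd (z.1 i * z'.2 i) (z'.1 i * z.2 i)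
    set d' := Nat.gcd (z.1 i * z''.2 i) (z''.1 i * z.2 i)
    set α := z.1 i * z'.2 i / d
    set β := z'.1 i * z.2 i / d
    have hα : 0 < α := by
      rcases Nat.eq_zero_or_pos α with h0 | h0
      · rw [h0, mul_zero] at a1
        have := Nat.mul_pos (h1 i) (h4 i)
        omega
      · exact h0
    have hβ : 0 < β := by
      rcases Nat.eq_zero_or_pos β with h0 | h0
      · rw [h0, mul_zero] at a2
        have := Nat.mul_pos (h3 i) (h2 i)
        omega
      · exact h0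
    have b1 : z.1 i * z'.2 i * β = z'.1 i * z.2 i * α := by rw [← a1, ← a2]; ring
    have b2 : z.1 i * z''.2 i * β = z''.1 i * z.2 i * α := by rw [← a3, ← a4]; ring
    have b3 : (z.1 i * z.2 i * (α * β)) * (z'.1 i * z''.2 i) =
        (z.1 i * z.2 i * (α * β)) * (z''.1 i * z'.2 i) := by
      calc (z.1 i * z.2 i * (α * β)) * (z'.1 i * z''.2 i)
          = (z'.1 i * z.2 i * α) * (z.1 i * z''.2 i * β) := by ring
        _ = (z.1 i * z'.2 i * β) * (z''.1 i * z.2 i * α) := by rw [← b1, b2]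
        _ = _ := by ring
    exact Nat.eq_of_mul_eq_mul_left
      (Nat.mul_pos (Nat.mul_pos (h1 i) (h2 i)) (Nat.mul_pos hα hβ)) b3
  have k1 : z'.1 = z''.1 := funext fun i => by
    apply Nat.dvd_antisymm
    · exact (hc' i).dvd_of_dvd_mul_right (Dvd.intro _ (key i))
    · exact (hc'' i).dvd_of_dvd_mul_right (Dvd.intro _ (key i).symm)
  have k2 : z'.2 = z''.2 := funext fun i => by
    have h5 := key i
    rw [← k1] at h5
    exact (Nat.eq_of_mul_eq_mul_left (h3 i) h5).symm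
  exact Prod.ext k1 k2

/-- (JE) for solutions: `T0` is the threshold of the far pairs -/
theorem je_sol (e : ι → ℕ) (M : ℕ) {c T : ι → ℕ} (hc : ∀ i, c i ≤ 2) (T0 : ℕ) :
    ((Sol e M T).card : ℝ) ≤
      2 * (T0 : ℝ) ^ (2 * Fintype.card ι) * ∏ i, (T i : ℝ) ^ (2 - c i) +
        √(2 * (En e M (Fs M c T) (fun _ => True) : ℝ) *
          (En e M (Gs M c T) (fun s => ∃ i, T0 ≤ ht s i) : ℝ)) := by
  classical
  have hcopF : ∀ z ∈ Fs M c T, (wt e z.2).Coprime M := by
    intro z hz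
    have h := (Finset.mem_product.1 hz).2
    exact wt_coprime fun i => (mem_vecs.1 h i).2.2
  have hcopG : ∀ z ∈ Gs M c T, (wt e z.2).Coprime M := by
    intro z hz
    have h := (Finset.mem_product.1 (Gs_subset M c T hz)).2
    exact wt_coprime fun i => (mem_vecs.1 h i).2.2
  have hL : ∀ g ∈ Gs M c T, ((Gs M c T).filter fun g' => phi e M g' = phi e M g ∧
      (∀ i, ht (red g g') i < T0)).card ≤ T0 ^ (2 * Fintype.card ι) := by
    intro g hg
    have hg' := Finset.mem_product.1 (Gs_subset M c T hg)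
    have hg1 := mem_vecs.1 hg'.1
    have hg2 := mem_vecs.1 hg'.2
    have h1 : ((Gs M c T).filter fun g' => phi e M g' = phi e M g ∧
        (∀ i, ht (red g g') i < T0)).card ≤
        ((Fintype.piFinset fun _ : ι => Finset.range T0) ×ˢ
          (Fintype.piFinset fun _ : ι => Finset.range T0)).card := by
      apply Finset.card_le_card_of_injOn (fun g' => red g g')
      · intro g' hx
        have h2 := (Finset.mem_filter.1 (Finset.mem_coe.1 hx)).2.2
        rw [Finset.mem_coe, Finset.mem_product, Fintype.mem_piFinset, Fintype.mem_piFinset]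
        exact ⟨fun i => Finset.mem_range.2 (lt_of_le_of_lt (le_max_left _ _) (h2 i)),
          fun i => Finset.mem_range.2 (lt_of_le_of_lt (le_max_right _ _) (h2 i))⟩
      · intro x hx y hy hxy
        have hx' := (Finset.mem_filter.1 (Finset.mem_coe.1 hx)).1
        have hy' := (Finset.mem_filter.1 (Finset.mem_coe.1 hy)).1
        have hx1 := Finset.mem_product.1 (Gs_subset M c T hx')
        have hx2 := mem_vecs.1 hx1.1
        have hx3 := mem_vecs.1 hx1.2
        exact red_inj (fun i => (hg1 i).1) (fun i => (hg2 i).1) (fun i => (hx2 i).1)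
          (fun i => (hx3 i).1) (Finset.mem_filter.1 hx').2 (Finset.mem_filter.1 hy').2 hxy
    refine h1.trans (le_of_eq ?_)
    rw [Finset.card_product, Fintype.card_piFinset]
    simp only [Finset.card_range, Finset.prod_const, Finset.card_univ]
    ring
  have hJ := joint_energy (Fs M c T) (Gs M c T) (phi e M) (phi e M)
    (fun g g' => ∀ i, ht (red g g') i < T0) (T0 ^ (2 * Fintype.card ι)) hL
  have hsol : (Sol e M T).card ≤
      ((Fs M c T ×ˢ Gs M c T).filter fun p => phi e M p.1 = phi e M p.2).card := by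
    apply Finset.card_le_card_of_injOn (fun p =>
      (((fun i => if c i ≤ 1 then p.2 i else 1, fun i => if c i = 0 then p.1 i else 1),
        (fun i => if 1 ≤ c i then p.1 i else 1, fun i => if c i = 2 then p.2 i else 1)) :
        ((ι → ℕ) × (ι → ℕ)) × ((ι → ℕ) × (ι → ℕ))))
    · intro p hp
      obtain ⟨hp1, hp2, hp3, hp4⟩ := mem_Sol.1 (Finset.mem_coe.1 hp)
      rw [mem_vecs] at hp1 hp2
      have hF : ((fun i => if c i ≤ 1 then p.2 i else 1, fun i => if c i = 0 then p.1 i else 1) :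
          (ι → ℕ) × (ι → ℕ)) ∈ Fs M c T := by
        unfold Fs
        rw [Finset.mem_product, mem_vecs, mem_vecs]
        constructor
        · intro i
          simp only [FP]
          by_cases h : c i ≤ 1
          · simp only [h, if_true]; exact hp2 i
          · simp only [h, if_false]; simp
        · intro i
          simp only [FQ]
          by_cases h : c i = 0
          · simp only [h, if_true]; exact hp1 i
          · simp only [h, if_false]; simp
      have hG : ((fun i => if 1 ≤ c i then p.1 i else 1, fun i => if c i = 2 then p.2 i else 1) :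
          (ι → ℕ) × (ι → ℕ)) ∈ Gs M c T := by
        unfold Gs
        rw [Finset.mem_filter, Finset.mem_product, mem_vecs, mem_vecs]
        refine ⟨⟨?_, ?_⟩, ?_⟩
        · intro i
          simp only [GP]
          by_cases h : 1 ≤ c i
          · simp only [h, if_true]; exact hp1 i
          · simp only [h, if_false]; simp
        · intro i
          simp only [GQ]
          by_cases h : c i = 2
          · simp only [h, if_true]; exact hp2 i
          · simp only [h, if_false]; simp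
        · intro i
          dsimp only
          split_ifs <;> first | exact hp3 i | simp
      rw [Finset.mem_coe, Finset.mem_filter, Finset.mem_product]
      refine ⟨⟨hF, hG⟩, ?_⟩
      rw [phi_eq_iff (hcopF _ hF) (hcopG _ hG)]
      rw [← wt_mul, ← wt_mul]
      have e1 : (fun i => (if c i ≤ 1 then p.2 i else 1) * (if c i = 2 then p.2 i else 1)) = p.2 := by
        funext i
        have := hc i
        split_ifs <;> first | omega | simp
      have e2 : (fun i => (if 1 ≤ c i then p.1 i else 1) * (if c i = 0 then p.1 i else 1)) = p.1 := by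
        funext i
        split_ifs <;> first | omega | simp
      simp only [e1, e2]
      exact hp4.symm
    · intro p _ q _ h
      simp only [Prod.mk.injEq] at h
      obtain ⟨⟨h1, h2⟩, h3, h4⟩ := h
      apply Prod.ext
      · funext i
        have a1 := congrFun h2 i
        have a2 := congrFun h3 i
        try dsimp only at a1 a2
        by_cases h5 : c i = 0
        · simpa [h5] using a1
        · simpa [h5, Nat.one_le_iff_ne_zero] using a2
      · funext i
        have a1 := congrFun h1 i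
        have a2 := congrFun h4 i
        try dsimp only at a1 a2
        by_cases h5 : c i ≤ 1
        · simpa [h5] using a1
        · have h6 : c i = 2 := by have := hc i; omega
          simpa [h6] using a2
  have hEF : (((Fs M c T ×ˢ Fs M c T).filter fun p => phi e M p.1 = phi e M p.2).card : ℝ) =
      (En e M (Fs M c T) (fun _ => True) : ℝ) := by
    unfold En
    norm_cast
    congr 1
    apply Finset.filter_congr
    intro p hp
    have hp' := Finset.mem_product.1 hp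
    rw [phi_eq_iff (hcopF _ hp'.1) (hcopF _ hp'.2), and_true]
  have hEG : (((Gs M c T ×ˢ Gs M c T).filter fun p => phi e M p.1 = phi e M p.2 ∧
      ¬ (∀ i, ht (red p.1 p.2) i < T0)).card : ℝ) =
      (En e M (Gs M c T) (fun s => ∃ i, T0 ≤ ht s i) : ℝ) := by
    unfold En
    norm_cast
    congr 1
    apply Finset.filter_congr
    intro p hp
    have hp' := Finset.mem_product.1 hp
    rw [phi_eq_iff (hcopG _ hp'.1) (hcopG _ hp'.2)]
    push Not
    rfl
  rw [hEF, hEG] at hJ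
  have h1 : ((Sol e M T).card : ℝ) ≤
      (((Fs M c T ×ˢ Gs M c T).filter fun p => phi e M p.1 = phi e M p.2).card : ℝ) := by
    exact_mod_cast hsol
  refine h1.trans (hJ.trans ?_)
  gcongr ?_ + _
  have h2 : ((Fs M c T).card : ℝ) ≤ ∏ i, (T i : ℝ) ^ (2 - c i) := by
    exact_mod_cast card_Fs_le M hc
  push_cast
  gcongr

/-- energies from counts: (E1) and (E2) together -/
theorem En_le (e : ι → ℕ) {ε : ℝ} (hε : 0 < ε) :
    ∃ C : ℝ, 1 ≤ C ∧ ∀ (M : ℕ) (P Q : ι → ℕ) (Z : Finset ((ι → ℕ) × (ι → ℕ))) (K : ℝ)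
      (pred : (ι → ℕ) × (ι → ℕ) → Prop) [DecidablePred pred],
      Z ⊆ vecs M P ×ˢ vecs M Q → 0 ≤ K →
      (∀ s ∈ Sol e M (fun i => P i * Q i), pred s → ∀ U : ι → ℕ, (∀ i, ht s i ≤ U i) →
        (∀ i, U i ≤ 2 * ht s i) →
        (∀ i, U i ≤ P i * Q i) → ((Sol e M U).card : ℝ) ≤ K * ∏ i, (U i : ℝ)) →
      (En e M Z pred : ℝ) ≤
        C * (∏ i, ((P i * Q i : ℕ) : ℝ)) ^ ε * (K * ∏ i, ((P i * Q i : ℕ) : ℝ)) := by
  obtain ⟨C1, hC1, h1⟩ := box_energy e (ε := ε / 2) (by positivity)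
  obtain ⟨C2, hC2, h2⟩ := dyadic_sum (ι := ι) (ε := ε / 2) (by positivity)
  refine ⟨C1 * C2, one_le_mul_of_one_le_of_one_le hC1 hC2, ?_⟩
  intro M P Q Z K pred _ hZ hK hU
  have h3 := h1 M P Q Z pred hZ
  have h4 := h2 e M (fun i => P i * Q i) K pred hK hU
  set D : ℝ := ∏ i, ((P i * Q i : ℕ) : ℝ) with hD
  have hD0 : 0 ≤ D := Finset.prod_nonneg fun i _ => Nat.cast_nonneg _
  unfold En
  refine h3.trans ?_
  calc C1 * D ^ (ε / 2) *
        ∑ s ∈ (Sol e M (fun i => P i * Q i)).filter pred, ∏ i, (((P i * Q i : ℕ) : ℝ) / ht s i)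
      ≤ C1 * D ^ (ε / 2) * (C2 * D ^ (ε / 2) * (K * D)) := by
        apply mul_le_mul_of_nonneg_left h4 (by positivity)
    _ = C1 * C2 * (D ^ (ε / 2) * D ^ (ε / 2)) * (K * D) := by ring
    _ ≤ C1 * C2 * D ^ ε * (K * D) := by
        apply mul_le_mul_of_nonneg_right _ (by positivity)
        apply mul_le_mul_of_nonneg_left _ (by positivity)
        rcases hD0.eq_or_lt with h0 | h0
        · rw [← h0, Real.zero_rpow (by positivity), Real.zero_rpow (by positivity)]
          simp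
        · rw [← Real.rpow_add h0]
          exact le_of_eq (by congr 1; ring)

/-- (REC) -/
theorem rec_bound (e : ι → ℕ) {ε : ℝ} (hε : 0 < ε) :
    ∃ C : ℝ, 1 ≤ C ∧ ∀ (M : ℕ) (T c : ι → ℕ) (T0 : ℕ) (K1 K2 : ℝ), (∀ i, c i ≤ 2) →
      (∀ i, 1 ≤ T i) → 0 ≤ K1 → 0 ≤ K2 →
      (∀ U : ι → ℕ, (∀ i, 1 ≤ U i) → (∀ i, U i ≤ T i ^ (2 - c i)) →
        ((Sol e M U).card : ℝ) ≤ K1 * ∏ i, (U i : ℝ)) →
      (∀ U : ι → ℕ, (∀ i, 1 ≤ U i) → (∀ i, U i ≤ T i ^ c i) → (∃ i, T0 ≤ U i) →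
        ((Sol e M U).card : ℝ) ≤ K2 * ∏ i, (U i : ℝ)) →
      ((Sol e M T).card : ℝ) ≤ C * (∏ i, (T i : ℝ)) ^ ε *
        ((T0 : ℝ) ^ (2 * Fintype.card ι) * ∏ i, (T i : ℝ) ^ (2 - c i) +
          √(K1 * K2) * ∏ i, (T i : ℝ)) := by
  obtain ⟨C1, hC1, h1⟩ := En_le e hε
  refine ⟨2 * C1, by linarith, ?_⟩
  intro M T c T0 K1 K2 hc hT hK1 hK2 hU1 hU2
  have hJ := je_sol e M (T := T) hc T0
  have hht : ∀ {B : ι → ℕ} {s : (ι → ℕ) × (ι → ℕ)}, s ∈ Sol e M B → ∀ i, 1 ≤ ht s i := by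
    intro B s hs i
    exact ((mem_vecs.1 (mem_Sol.1 hs).1) i).1.trans (le_max_left _ _)
  have eF : ∀ i, FP c T i * FQ c T i = T i ^ (2 - c i) := FP_mul_FQ hc
  have eG : ∀ i, GP c T i * GQ c T i = T i ^ c i := GP_mul_GQ hc
  have hF := h1 M (FP c T) (FQ c T) (Fs M c T) K1 (fun _ => True) (Finset.Subset.refl _) hK1
    (fun s hs _ U u1 _ u3 => hU1 U (fun i => (hht hs i).trans (u1 i))
      (fun i => (u3 i).trans (le_of_eq (eF i))))
  have hG := h1 M (GP c T) (GQ c T) (Gs M c T) K2 (fun s => ∃ i, T0 ≤ ht s i) (Gs_subset M c T) hK2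
    (fun s hs hp U u1 _ u3 => hU2 U (fun i => (hht hs i).trans (u1 i))
      (fun i => (u3 i).trans (le_of_eq (eG i)))
      (by obtain ⟨i, hi⟩ := hp; exact ⟨i, hi.trans (u1 i)⟩))
  simp only [eF] at hF
  simp only [eG] at hG
  set D : ℝ := ∏ i, (T i : ℝ) with hD
  set DF : ℝ := ∏ i, ((T i ^ (2 - c i) : ℕ) : ℝ) with hDF
  set DG : ℝ := ∏ i, ((T i ^ c i : ℕ) : ℝ) with hDG
  have hT' : ∀ i, (1 : ℝ) ≤ T i := fun i => by exact_mod_cast hT i
  have hD1 : 1 ≤ D := by
    rw [hD]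
    calc (1:ℝ) = ∏ _i : ι, 1 := by simp
      _ ≤ _ := Finset.prod_le_prod (fun _ _ => by norm_num) fun i _ => hT' i
  have hDF1 : 1 ≤ DF := by
    rw [hDF]
    calc (1:ℝ) = ∏ _i : ι, 1 := by simp
      _ ≤ _ := Finset.prod_le_prod (fun _ _ => by norm_num) fun i _ => by
        exact_mod_cast Nat.one_le_pow _ _ (hT i)
  have hDG1 : 1 ≤ DG := by
    rw [hDG]
    calc (1:ℝ) = ∏ _i : ι, 1 := by simp
      _ ≤ _ := Finset.prod_le_prod (fun _ _ => by norm_num) fun i _ => by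
        exact_mod_cast Nat.one_le_pow _ _ (hT i)
  have hFG : DF * DG = D ^ 2 := by
    rw [hDF, hDG, hD, ← Finset.prod_mul_distrib, ← Finset.prod_pow]
    refine Finset.prod_congr rfl fun i _ => ?_
    have := hc i
    push_cast
    rw [← pow_add]
    congr 1
    omega
  have hprod : ∏ i, (T i : ℝ) ^ (2 - c i) = DF := by
    rw [hDF]; push_cast; rfl
  rw [hprod] at hJ ⊢
  have hDε : 1 ≤ D ^ ε := Real.one_le_rpow hD1 hε.le
  have hsq : √(2 * (En e M (Fs M c T) (fun _ => True) : ℝ) *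
      (En e M (Gs M c T) (fun s => ∃ i, T0 ≤ ht s i) : ℝ)) ≤
      2 * C1 * D ^ ε * (√(K1 * K2) * D) := by
    rw [Real.sqrt_le_iff]
    constructor
    · positivity
    calc 2 * (En e M (Fs M c T) (fun _ => True) : ℝ) *
        (En e M (Gs M c T) (fun s => ∃ i, T0 ≤ ht s i) : ℝ)
        ≤ 2 * (C1 * DF ^ ε * (K1 * DF)) * (C1 * DG ^ ε * (K2 * DG)) := by
          apply mul_le_mul _ hG (Nat.cast_nonneg _) (by positivity)
          exact mul_le_mul_of_nonneg_left hF (by norm_num)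
      _ = 2 * C1 ^ 2 * (DF ^ ε * DG ^ ε) * (K1 * K2) * (DF * DG) := by ring
      _ = 2 * C1 ^ 2 * (D ^ ε) ^ 2 * (K1 * K2) * D ^ 2 := by
          rw [← Real.mul_rpow (by linarith) (by linarith), hFG]
          have : (D ^ 2) ^ ε = (D ^ ε) ^ 2 := by
            rw [← Real.rpow_natCast, ← Real.rpow_natCast, ← Real.rpow_mul (by linarith),
              ← Real.rpow_mul (by linarith)]
            congr 1; ring
          rw [this]
      _ ≤ 4 * C1 ^ 2 * (D ^ ε) ^ 2 * (K1 * K2) * D ^ 2 := by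
          have : 0 ≤ C1 ^ 2 * (D ^ ε) ^ 2 * (K1 * K2) * D ^ 2 := by positivity
          nlinarith
      _ = (2 * C1 * D ^ ε * (√(K1 * K2) * D)) ^ 2 := by
          rw [mul_pow, mul_pow, mul_pow, mul_pow, Real.sq_sqrt (by positivity)]
          ring
  calc ((Sol e M T).card : ℝ) ≤ 2 * (T0 : ℝ) ^ (2 * Fintype.card ι) * DF +
        √(2 * (En e M (Fs M c T) (fun _ => True) : ℝ) *
          (En e M (Gs M c T) (fun s => ∃ i, T0 ≤ ht s i) : ℝ)) := hJ
    _ ≤ 2 * (T0 : ℝ) ^ (2 * Fintype.card ι) * DF + 2 * C1 * D ^ ε * (√(K1 * K2) * D) := by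
        gcongr
    _ ≤ 2 * C1 * D ^ ε * ((T0 : ℝ) ^ (2 * Fintype.card ι) * DF) +
        2 * C1 * D ^ ε * (√(K1 * K2) * D) := by
        have h5 : 0 ≤ (T0 : ℝ) ^ (2 * Fintype.card ι) * DF := by positivity
        have h6 : 1 ≤ C1 * D ^ ε := one_le_mul_of_one_le_of_one_le hC1 hDε
        nlinarith
    _ = _ := by ring

/-- (REC0) -/
theorem rec_bound_zero (e : ι → ℕ) {ε : ℝ} (hε : 0 < ε) :
    ∃ C : ℝ, 1 ≤ C ∧ ∀ (M : ℕ) (T c : ι → ℕ) (K1 K2 : ℝ), (∀ i, c i ≤ 2) →
      (∀ i, 1 ≤ T i) → 0 ≤ K1 → 0 ≤ K2 →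
      (∀ U : ι → ℕ, (∀ i, 1 ≤ U i) → (∀ i, U i ≤ T i ^ (2 - c i)) →
        ((Sol e M U).card : ℝ) ≤ K1 * ∏ i, (U i : ℝ)) →
      (∀ U : ι → ℕ, (∀ i, 1 ≤ U i) → (∀ i, U i ≤ T i ^ c i) →
        ((Sol e M U).card : ℝ) ≤ K2 * ∏ i, (U i : ℝ)) →
      ((Sol e M T).card : ℝ) ≤ C * (∏ i, (T i : ℝ)) ^ ε *
          (√(K1 * K2) * ∏ i, (T i : ℝ)) := by
  obtain ⟨C, hC, h⟩ := rec_bound e hε
  refine ⟨C, hC, fun M T c K1 K2 hc hT hK1 hK2 hU1 hU2 => ?_⟩
  rcases isEmpty_or_nonempty ι with hι | hι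
  · -- no variables: all counts are at most one
    have h0 := hU1 T hT (fun i => (hι.false i).elim)
    have h1 := hU2 T hT (fun i => (hι.false i).elim)
    simp only [Finset.univ_eq_empty, Finset.prod_empty, mul_one, Real.one_rpow] at h0 h1 ⊢
    have h2 : ((Sol e M T).card : ℝ) ≤ √(K1 * K2) := by
      apply Real.le_sqrt_of_sq_le
      rw [sq]
      exact mul_le_mul h0 h1 (Nat.cast_nonneg _) hK1
    calc ((Sol e M T).card : ℝ) ≤ 1 * √(K1 * K2) := by rw [one_mul]; exact h2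
      _ ≤ C * √(K1 * K2) := mul_le_mul_of_nonneg_right hC (Real.sqrt_nonneg _)
  · have h1 := h M T c 0 K1 K2 hc hT hK1 hK2 hU1 (fun U u1 u2 _ => hU2 U u1 u2)
    have h2 : (2 * Fintype.card ι) ≠ 0 := by
      have := Fintype.card_pos (α := ι)
      omega
    simpa [zero_pow h2] using h1

end Pool.Agent.Helper75.EN
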