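import Pool.Agent.Helper75.EN.Quad

/-!
# Project EN (MP_4ab349_nt): square root bounds on domains, (Q1) - (Q4)
-/

set_option autoImplicit false

namespace Pool.Agent.Helper75.EN

open Finset

variable {ι : Type*} [Fintype ι] [DecidableEq ι]

set_option linter.unusedSectionVars false

/-- the square root bound holds on the domain `P` -/
def SB (e : ι → ℕ) (P : ℕ → (ι → ℕ) → Prop) : Prop :=
  ∀ ε : ℝ, 0 < ε → ∃ C : ℝ, 1 ≤ C ∧ ∀ (M : ℕ) (T : ι → ℕ), 0 < M → (∀ k, 1 ≤ T k) → P M T →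
    ((Sol e M T).card : ℝ) ≤ C * (M : ℝ) ^ ε * ∏ k, (T k : ℝ)

theorem SB.mono {e : ι → ℕ} {P P' : ℕ → (ι → ℕ) → Prop} (h : SB e P)
    (hP : ∀ M T, 0 < M → (∀ k, 1 ≤ T k) → P' M T → P M T) : SB e P' := by
  intro ε hε
  obtain ⟨C, hC, h1⟩ := h ε hε
  exact ⟨C, hC, fun M T hM hT hP' => h1 M T hM hT (hP M T hM hT hP')⟩

theorem SB.or {e : ι → ℕ} {P P' : ℕ → (ι → ℕ) → Prop} (h : SB e P) (h' : SB e P') :
    SB e (fun M T => P M T ∨ P' M T) := by
  intro ε hε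
  obtain ⟨C, hC, h1⟩ := h ε hε
  obtain ⟨C', hC', h1'⟩ := h' ε hε
  refine ⟨max C C', hC.trans (le_max_left _ _), fun M T hM hT hP => ?_⟩
  rcases hP with hP | hP
  · refine (h1 M T hM hT hP).trans ?_
    gcongr
    exact le_max_left _ _
  · refine (h1' M T hM hT hP).trans ?_
    gcongr
    exact le_max_right _ _

/-- (REC0) for domains -/
theorem SB.rec0 {e : ι → ℕ} {P P1 P2 : ℕ → (ι → ℕ) → Prop} (c : ι → ℕ) (hc : ∀ i, c i ≤ 2)
    (A : ℕ) (h1 : SB e P1) (h2 : SB e P2)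
    (hP : ∀ M T, 0 < M → (∀ k, 1 ≤ T k) → P M T → (∏ k, T k ≤ M ^ A) ∧
      (∀ U : ι → ℕ, (∀ k, 1 ≤ U k) → (∀ k, U k ≤ T k ^ (2 - c k)) → P1 M U) ∧
      (∀ U : ι → ℕ, (∀ k, 1 ≤ U k) → (∀ k, U k ≤ T k ^ c k) → P2 M U)) : SB e P := by
  intro ε hε
  have hA : (0 : ℝ) < 2 * (A + 1) := by positivity
  obtain ⟨C0, hC0, h0⟩ := rec_bound_zero e (ε := ε / (2 * (A + 1))) (by positivity)
  obtain ⟨C1, hC1, h1'⟩ := h1 (ε / 2) (by positivity)
  obtain ⟨C2, hC2, h2'⟩ := h2 (ε / 2) (by positivity)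
  refine ⟨C0 * (C1 * C2), one_le_mul_of_one_le_of_one_le hC0
    (one_le_mul_of_one_le_of_one_le hC1 hC2), ?_⟩
  intro M T hM hT hPT
  obtain ⟨p1, p2, p3⟩ := hP M T hM hT hPT
  have hM1 : (1 : ℝ) ≤ M := by exact_mod_cast hM
  have hT1 : (1 : ℝ) ≤ ∏ k, (T k : ℝ) := by
    calc (1:ℝ) = ∏ _i : ι, 1 := by simp
      _ ≤ _ := Finset.prod_le_prod (fun _ _ => by norm_num) fun i _ => by exact_mod_cast hT i
  have hK1 : (0:ℝ) ≤ C1 * (M : ℝ) ^ (ε / 2) := by positivity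
  have hK2 : (0:ℝ) ≤ C2 * (M : ℝ) ^ (ε / 2) := by positivity
  have h3 := h0 M T c (C1 * (M : ℝ) ^ (ε / 2)) (C2 * (M : ℝ) ^ (ε / 2)) hc hT hK1 hK2
    (fun U u1 u2 => h1' M U hM u1 (p2 U u1 u2)) (fun U u1 u2 => h2' M U hM u1 (p3 U u1 u2))
  refine h3.trans ?_
  have h4 : (∏ k, (T k : ℝ)) ^ (ε / (2 * (A + 1))) ≤ (M : ℝ) ^ (ε / 2) := by
    have h5 : ∏ k, (T k : ℝ) ≤ (M : ℝ) ^ (A : ℝ) := by
      rw [Real.rpow_natCast]
      exact_mod_cast p1
    calc (∏ k, (T k : ℝ)) ^ (ε / (2 * (A + 1))) ≤ ((M : ℝ) ^ (A : ℝ)) ^ (ε / (2 * (A + 1))) := by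
          gcongr
      _ = (M : ℝ) ^ ((A : ℝ) * (ε / (2 * (A + 1)))) := by rw [← Real.rpow_mul (by positivity)]
      _ ≤ (M : ℝ) ^ (ε / 2) := by
          apply Real.rpow_le_rpow_of_exponent_le hM1
          rw [mul_div_assoc', div_le_div_iff₀ hA (by norm_num)]
          nlinarith
  have h6 : √(C1 * (M : ℝ) ^ (ε / 2) * (C2 * (M : ℝ) ^ (ε / 2))) ≤ C1 * C2 * (M : ℝ) ^ (ε / 2) := by
    rw [Real.sqrt_le_iff]
    refine ⟨by positivity, ?_⟩
    have h7 : 1 ≤ C1 * C2 := one_le_mul_of_one_le_of_one_le hC1 hC2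
    calc C1 * (M : ℝ) ^ (ε / 2) * (C2 * (M : ℝ) ^ (ε / 2))
        = 1 * (C1 * C2) * ((M : ℝ) ^ (ε / 2)) ^ 2 := by ring
      _ ≤ (C1 * C2) * (C1 * C2) * ((M : ℝ) ^ (ε / 2)) ^ 2 := by gcongr
      _ = _ := by ring
  calc C0 * (∏ k, (T k : ℝ)) ^ (ε / (2 * (A + 1))) *
        (√(C1 * (M : ℝ) ^ (ε / 2) * (C2 * (M : ℝ) ^ (ε / 2))) * ∏ k, (T k : ℝ))
      ≤ C0 * (M : ℝ) ^ (ε / 2) * ((C1 * C2 * (M : ℝ) ^ (ε / 2)) * ∏ k, (T k : ℝ)) := by gcongr
    _ = C0 * (C1 * C2) * ((M : ℝ) ^ (ε / 2) * (M : ℝ) ^ (ε / 2)) * ∏ k, (T k : ℝ) := by ring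
    _ = _ := by
        rw [← Real.rpow_add (by positivity), add_halves]

/-- (Q1) -/
theorem q1 (e : ι → ℕ) (i : ι) (hi : 1 ≤ e i) :
    SB e (fun M T => (∀ k, k ≠ i → T k = 1) ∧ T i ≤ M) := by
  intro ε hε
  obtain ⟨C, hC, h⟩ := quad e i hi (ε := ε / 3) (by positivity)
  refine ⟨2 * C, by linarith, ?_⟩
  intro M T hM hT ⟨hs, hTM⟩
  have h1 := h M T hM hT
  have hM1 : (1 : ℝ) ≤ M := by exact_mod_cast hM
  have hTM' : (T i : ℝ) ≤ M := by exact_mod_cast hTM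
  have hTi : (1 : ℝ) ≤ T i := by exact_mod_cast hT i
  have e1 : ∏ k ∈ univ.erase i, (T k : ℝ) = 1 :=
    Finset.prod_eq_one fun k hk => by rw [hs k (Finset.ne_of_mem_erase hk)]; norm_num
  have e2 : ∏ k, (T k : ℝ) = T i := by
    rw [← Finset.mul_prod_erase _ _ (Finset.mem_univ i), e1, mul_one]
  rw [e1] at h1
  rw [e2]
  have h2 : ((M : ℝ) * T i * T i) ^ (ε / 3) ≤ (M : ℝ) ^ ε := by
    calc ((M : ℝ) * T i * T i) ^ (ε / 3) ≤ ((M : ℝ) * M * M) ^ (ε / 3) := by gcongr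
      _ = ((M : ℝ) ^ (3 : ℕ)) ^ (ε / 3) := by ring_nf
      _ = (M : ℝ) ^ ε := by
        rw [← Real.rpow_natCast, ← Real.rpow_mul (by positivity)]
        congr 1
        push_cast
        ring
  have h3 : (T i : ℝ) * T i / M ≤ T i := by
    rw [div_le_iff₀ (by positivity)]
    gcongr
  calc ((Sol e M T).card : ℝ) ≤ C * ((M : ℝ) * T i * T i) ^ (ε / 3) * 1 ^ 2 *
        (1 + (T i : ℝ) * T i / M) := h1
    _ ≤ C * (M : ℝ) ^ ε * 1 ^ 2 * (2 * T i) := by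
        gcongr
        linarith
    _ = _ := by ring

/-- (Q2) -/
theorem q2 (e : ι → ℕ) {i j : ι} (hij : i ≠ j) (hi : 1 ≤ e i) (hj : 1 ≤ e j) :
    SB e (fun M T => (∀ k, k ≠ i → k ≠ j → T k = 1) ∧ T i * T j ≤ M) := by
  have key : ∀ {i j : ι}, i ≠ j → 1 ≤ e i →
      SB e (fun M T => ((∀ k, k ≠ i → k ≠ j → T k = 1) ∧ T i * T j ≤ M) ∧ T j ≤ T i) := by
    intro i j hij hi ε hε
    obtain ⟨C, hC, h⟩ := quad e i hi (ε := ε / 3) (by positivity)
    refine ⟨2 * C, by linarith, ?_⟩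
    intro M T hM hT ⟨⟨hs, hTM⟩, hji⟩
    have h1 := h M T hM hT
    have hM1 : (1 : ℝ) ≤ M := by exact_mod_cast hM
    have hTM' : (T i : ℝ) * T j ≤ M := by exact_mod_cast hTM
    have hTi : (1 : ℝ) ≤ T i := by exact_mod_cast hT i
    have hTj : (1 : ℝ) ≤ T j := by exact_mod_cast hT j
    have hji' : (T j : ℝ) ≤ T i := by exact_mod_cast hji
    have e1 : ∏ k ∈ univ.erase i, (T k : ℝ) = T j := by
      rw [← Finset.mul_prod_erase _ _ (Finset.mem_erase.2 ⟨hij.symm, Finset.mem_univ j⟩)]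
      rw [Finset.prod_eq_one, mul_one]
      intro k hk
      have h5 := Finset.mem_erase.1 hk
      rw [hs k (Finset.ne_of_mem_erase h5.2) h5.1]
      norm_num
    have e2 : ∏ k, (T k : ℝ) = T i * T j := by
      rw [← Finset.mul_prod_erase _ _ (Finset.mem_univ i), e1]
    rw [e1] at h1
    rw [e2]
    have h0 : (T i : ℝ) ≤ M := by nlinarith
    have h2 : ((M : ℝ) * T i * T i) ^ (ε / 3) ≤ (M : ℝ) ^ ε := by
      calc ((M : ℝ) * T i * T i) ^ (ε / 3) ≤ ((M : ℝ) * M * M) ^ (ε / 3) := by gcongr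
        _ = ((M : ℝ) ^ (3 : ℕ)) ^ (ε / 3) := by ring_nf
        _ = (M : ℝ) ^ ε := by
          rw [← Real.rpow_natCast, ← Real.rpow_mul (by positivity)]
          congr 1
          push_cast
          ring
    have h3 : (T j : ℝ) ^ 2 * (1 + (T i : ℝ) * T i / M) ≤ 2 * (T i * T j) := by
      have h4 : (T j : ℝ) ^ 2 * ((T i : ℝ) * T i / M) ≤ T i * T j := by
        rw [mul_div_assoc', div_le_iff₀ (by positivity)]
        calc (T j : ℝ) ^ 2 * (T i * T i) = (T i * T j) * (T i * T j) := by ring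
          _ ≤ (T i * T j) * M := by gcongr
      have h5 : (T j : ℝ) ^ 2 ≤ T i * T j := by rw [sq]; gcongr
      calc (T j : ℝ) ^ 2 * (1 + (T i : ℝ) * T i / M)
          = (T j : ℝ) ^ 2 + (T j : ℝ) ^ 2 * ((T i : ℝ) * T i / M) := by ring
        _ ≤ _ := by linarith
    calc ((Sol e M T).card : ℝ) ≤ C * ((M : ℝ) * T i * T i) ^ (ε / 3) * (T j : ℝ) ^ 2 *
          (1 + (T i : ℝ) * T i / M) := h1
      _ = C * ((M : ℝ) * T i * T i) ^ (ε / 3) * ((T j : ℝ) ^ 2 *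
          (1 + (T i : ℝ) * T i / M)) := by ring
      _ ≤ C * (M : ℝ) ^ ε * (2 * (T i * T j)) := by gcongr
      _ = _ := by ring
  refine ((key hij hi).or (key hij.symm hj)).mono ?_
  intro M T hM hT ⟨h1, h2⟩
  rcases le_total (T j) (T i) with h3 | h3
  · exact Or.inl ⟨⟨h1, h2⟩, h3⟩
  · exact Or.inr ⟨⟨fun k a b => h1 k b a, by rw [mul_comm]; exact h2⟩, h3⟩

/-- (Q3) -/
theorem q3 (e : ι → ℕ) {i j k : ι} (hij : i ≠ j) (hik : i ≠ k) (hjk : j ≠ k) (hi : 1 ≤ e i)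
    (hj : 1 ≤ e j) (hk : 1 ≤ e k) :
    SB e (fun M T => (∀ l, l ≠ i → l ≠ j → l ≠ k → T l = 1) ∧ T i ^ 2 ≤ M ∧
      (T j * T k) ^ 2 ≤ M) := by
  refine SB.rec0 (fun l => if l = i then 2 else 0) (fun l => by split_ifs <;> omega) 1
    (q2 e hjk hj hk) (q1 e i hi) ?_
  intro M T hM hT ⟨hs, h1, h2⟩
  refine ⟨?_, ?_, ?_⟩
  · have e1 : ∏ l, T l = T i * (T j * T k) := by
      rw [← Finset.mul_prod_erase _ _ (Finset.mem_univ i),
        ← Finset.mul_prod_erase _ _ (Finset.mem_erase.2 ⟨hij.symm, Finset.mem_univ j⟩),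
        ← Finset.mul_prod_erase _ _ (Finset.mem_erase.2 ⟨hjk.symm,
          Finset.mem_erase.2 ⟨hik.symm, Finset.mem_univ k⟩⟩), Finset.prod_eq_one, mul_one]
      intro l hl
      simp only [Finset.mem_erase, Finset.mem_univ, and_true] at hl
      exact hs l hl.2.2 hl.2.1 hl.1
    rw [e1, pow_one]
    by_contra hn
    push Not at hn
    have h3 : M ^ 2 < (T i * (T j * T k)) ^ 2 := Nat.pow_lt_pow_left hn (by norm_num)
    have h4 : (T i * (T j * T k)) ^ 2 ≤ M * M := by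
      rw [mul_pow]; exact Nat.mul_le_mul h1 h2
    rw [sq] at h3
    omega
  · intro U u1 u2
    refine ⟨fun l a b => ?_, ?_⟩
    · have h3 := u2 l
      have h4 := u1 l
      by_cases hl : l = i
      · subst hl; simp at h3; omega
      · rw [hs l hl a b] at h3; simp at h3; omega
    · have h3 := u2 j
      have h4 := u2 k
      simp only [hij.symm, hik.symm, if_false] at h3 h4
      calc U j * U k ≤ T j ^ (2 - 0) * T k ^ (2 - 0) := Nat.mul_le_mul h3 h4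
        _ = (T j * T k) ^ 2 := by ring
        _ ≤ M := h2
  · intro U u1 u2
    refine ⟨fun l a => ?_, ?_⟩
    · have h3 := u2 l
      have h4 := u1 l
      simp only [a, if_false, pow_zero] at h3
      omega
    · have h3 := u2 i
      simp only [if_true] at h3
      exact h3.trans h1

/-- (Q4) -/
theorem q4 (e : ι → ℕ) {i j k l : ι} (hij : i ≠ j) (hik : i ≠ k) (hil : i ≠ l) (hjk : j ≠ k)
    (hjl : j ≠ l) (hkl : k ≠ l) (hi : 1 ≤ e i) (hj : 1 ≤ e j) (hk : 1 ≤ e k) (hl : 1 ≤ e l) :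
    SB e (fun M T => (∀ n, n ≠ i → n ≠ j → n ≠ k → n ≠ l → T n = 1) ∧ (T i * T j) ^ 2 ≤ M ∧
      (T k * T l) ^ 2 ≤ M) := by
  refine SB.rec0 (fun n => if n = i ∨ n = j then 2 else 0) (fun l => by split_ifs <;> omega) 1
    (q2 e hkl hk hl) (q2 e hij hi hj) ?_
  intro M T hM hT ⟨hs, h1, h2⟩
  refine ⟨?_, ?_, ?_⟩
  · have e1 : ∏ l, T l = T i * T j * (T k * T l) := by
      rw [← Finset.mul_prod_erase _ _ (Finset.mem_univ i),
        ← Finset.mul_prod_erase _ _ (Finset.mem_erase.2 ⟨hij.symm, Finset.mem_univ j⟩),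
        ← Finset.mul_prod_erase _ _ (Finset.mem_erase.2 ⟨hjk.symm,
          Finset.mem_erase.2 ⟨hik.symm, Finset.mem_univ k⟩⟩),
        ← Finset.mul_prod_erase _ _ (Finset.mem_erase.2 ⟨hkl.symm, Finset.mem_erase.2 ⟨hjl.symm,
          Finset.mem_erase.2 ⟨hil.symm, Finset.mem_univ l⟩⟩⟩), Finset.prod_eq_one]
      · ring
      intro n hn
      simp only [Finset.mem_erase, Finset.mem_univ, and_true] at hn
      exact hs n hn.2.2.2 hn.2.2.1 hn.2.1 hn.1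
    rw [e1, pow_one]
    by_contra hn
    push Not at hn
    have h3 : M ^ 2 < (T i * T j * (T k * T l)) ^ 2 := Nat.pow_lt_pow_left hn (by norm_num)
    have h4 : (T i * T j * (T k * T l)) ^ 2 ≤ M * M := by
      rw [mul_pow]; exact Nat.mul_le_mul h1 h2
    rw [sq] at h3
    omega
  · intro U u1 u2
    refine ⟨fun n a b => ?_, ?_⟩
    · have h3 := u2 n
      have h4 := u1 n
      by_cases hn : n = i ∨ n = j
      · simp only [hn, if_true, Nat.sub_self, pow_zero] at h3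
        omega
      · push Not at hn
        rw [hs n hn.1 hn.2 a b, one_pow] at h3
        omega
    · have h3 := u2 k
      have h4 := u2 l
      simp only [hik.symm, hjk.symm, hil.symm, hjl.symm, or_self, if_false] at h3 h4
      calc U k * U l ≤ T k ^ (2 - 0) * T l ^ (2 - 0) := Nat.mul_le_mul h3 h4
        _ = (T k * T l) ^ 2 := by ring
        _ ≤ M := h2
  · intro U u1 u2
    refine ⟨fun n a b => ?_, ?_⟩
    · have h3 := u2 n
      have h4 := u1 n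
      simp only [a, b, or_self, if_false, pow_zero] at h3
      omega
    · have h3 := u2 i
      have h4 := u2 j
      simp only [true_or, or_true, if_true] at h3 h4
      calc U i * U j ≤ T i ^ 2 * T j ^ 2 := Nat.mul_le_mul h3 h4
        _ = (T i * T j) ^ 2 := by ring
        _ ≤ M := h1

end Pool.Agent.Helper75.EN
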